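import Pool.Agent.Full.Turn.Next
import Pool.Agent.Full.Corner.Flip

/-!
# The turning law, forms for the six vertex network

For a simply connected region `(T, g)` (`SC`) with straight gluing (`Straight`), without cone points
(`Flat`) and without closed components (`Open`):
* `loopFour` : closed strands turn by `±4`;
* `sturn_next` : the turning of the strand from `e` to `next^n e`;
* `sturn_pos`, `sturn_th` : the turning in terms of positions on the boundary cycle.
-/

set_option autoImplicit false

namespace Full.Turn
open Function Relation Full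

variable {τ : Type*} [DecidableEq τ] {T : Finset τ} {g : Half τ → Half τ}

lemma turn_eq (ω : Finset τ) (g : Half τ → Half τ) (n : ℕ) (x : Half τ) :
    Net.turn ω g n x = tsum ω g x n := rfl

lemma sturn_eq (ω : Finset τ) (g : Half τ → Half τ) (x : Half τ) :
    Net.sturn ω g x = turn ω g x := rfl

/-- a region with the turning law -/
structure Good (T : Finset τ) (g : Half τ → Half τ) : Prop where
  glu : Glu T g
  straight : Straight g
  flat : Flat T g
  op : Open T g
  sc : SC T g

namespace Good
variable (h : Good T g)
include h

/-- **closed strands turn by `±4`** -/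
theorem loopFour : Corner.LoopFour T g := by
  intro ω _ x hx hc
  exact loop_law h.glu h.straight h.flat h.op h.sc ω hx fun j =>
    hc _ ((Conn.iter j x).trans (Conn.m_step _))

/-- **the strand from `e` to `next^n e`** -/
theorem sturn_next (ω : Finset τ) {e : Half τ} (he : Bd T g e) {n : ℕ} (h0 : 0 < n)
    (hn : n < minimalPeriod (next g) e) (ho : other (mate ω) g e = (next g)^[n] e) :
    Net.sturn ω g e = ∑ j ∈ Finset.range n, bt g ((next g)^[j] e) - 2 :=
  law_next h.glu h.straight h.flat h.op h.sc ω he h0 hn ho

/-- the other end of a strand on the boundary -/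
theorem exists_next (ω : Finset τ) {e : Half τ} (he : Bd T g e) : ∃ n, 0 < n ∧
    n < minimalPeriod (next g) e ∧ other (mate ω) g e = (next g)^[n] e ∧
    Net.sturn ω g e = ∑ j ∈ Finset.range n, bt g ((next g)^[j] e) - 2 := by
  have h1 := h.glu.on_other (h.glu.on_self he) ω
  have h2 := h.glu.pos_spec h.sc he h1
  have h3 := h.glu.pos_lt h.sc he h1
  have h4 : 0 < bpos g e (other (mate ω) g e) := by
    rcases Nat.eq_zero_or_pos (bpos g e (other (mate ω) g e)) with h5 | h5
    · rw [h5] at h2
      exact absurd h2.symm (h.glu.other_ne he)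
    · exact h5
  exact ⟨_, h4, h3, h2.symm, h.sturn_next ω he h4 h3 h2.symm⟩

/-- the boundary turns by `4` -/
theorem total {x : Half τ} (hx : Bd T g x) :
    ∑ j ∈ Finset.range (minimalPeriod (next g) x), bt g ((next g)^[j] x) = 4 :=
  Turn.total h.glu h.straight h.flat h.op h.sc hx

/-- **positions from a base point**, `th` increases by `bt` along the boundary -/
theorem sturn_th (ω : Finset τ) {b : Half τ} (hb : Bd T g b) (th : Half τ → ℤ)
    (hth : ∀ x, On T g b x → next g x ≠ b → th (next g x) = th x + bt g x) {e : Half τ}
    (he : On T g b e) (hlt : bpos g b e < bpos g b (other (mate ω) g e)) :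
    Net.sturn ω g e = th (other (mate ω) g e) - th e - 2 :=
  law_th h.glu h.straight h.flat h.op h.sc ω hb th hth he hlt

/-- the same with any labels `ps`, `th` on the boundary half edges; `L` is the length of the boundary -/
theorem sturn_lab (ω : Finset τ) {L : ℤ} (ps th : Half τ → ℤ)
    (hinj : ∀ x, Bd T g x → ∀ y, Bd T g y → ps x = ps y → x = y)
    (hrng : ∀ x, Bd T g x → ps x < L)
    (hstep : ∀ x, Bd T g x → ps x + 1 < L → ps (next g x) = ps x + 1 ∧
      th (next g x) = th x + bt g x) {e : Half τ} (he : Bd T g e)
    (hlt : ps e < ps (other (mate ω) g e)) :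
    Net.sturn ω g e = th (other (mate ω) g e) - th e - 2 := by
  have he' := h.glu.other_bd (ω := ω) he
  -- steps
  have key : ∀ n : ℕ, ps e + n < L → ps ((next g)^[n] e) = ps e + n ∧
      th ((next g)^[n] e) = th e + ∑ j ∈ Finset.range n, bt g ((next g)^[j] e) := by
    intro n
    induction n with
    | zero => intro _; simp
    | succ n ih =>
      intro hn
      push_cast at hn
      obtain ⟨h1, h2⟩ := ih (by omega)
      obtain ⟨h3, h4⟩ := hstep _ (h.glu.bd_iter he n) (by omega)
      rw [iterate_succ_apply', Finset.sum_range_succ]
      constructor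
      · rw [h3, h1]; push_cast; ring
      · rw [h4, h2]; ring
  obtain ⟨n, hn⟩ : ∃ n : ℕ, ps (other (mate ω) g e) = ps e + n := by
    refine ⟨(ps (other (mate ω) g e) - ps e).toNat, ?_⟩
    omega
  have h1 := hrng _ he'
  obtain ⟨h2, h3⟩ := key n (by omega)
  have h4 : (next g)^[n] e = other (mate ω) g e :=
    hinj _ (h.glu.bd_iter he n) _ he' (by rw [h2, hn])
  have h5 : 0 < n := by omega
  have h6 : n < minimalPeriod (next g) e := by
    by_contra hc
    push Not at hc
    have h7 : 0 < minimalPeriod (next g) e :=
      minimalPeriod_pos_of_mem_periodicPts (h.glu.next_periodic he)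
    have h8 := (key (minimalPeriod (next g) e) (by omega)).1
    rw [iterate_minimalPeriod] at h8
    omega
  rw [h.sturn_next ω he h5 h6 h4.symm, ← h4, h3]
  ring

end Good

end Full.Turn
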