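import Pool.Agent.Full.Turn.Loop
import Pool.Agent.Full.Disc.Pos

/-!
# The turning law along the boundary permutation `next`

`bt g x` is the direction change of the boundary from `x` to `next g x` in quarter turns (convex corner
`1`, straight `0`, reflex corner `-1`).
* `bt_of` computes `bt` and `next`;
* `law_next` : the strands of a simply connected flat region: if `other e = next^n e` with `0 < n` less
  than the length of the boundary, the turning is `∑ i < n, bt (next^i e) - 2`;
* `total` : the boundary turns by `4`.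
-/

set_option autoImplicit false

namespace Full.Turn
open Function Relation Full

namespace Pl
variable {α : Type*} {R : α → α → ℤ → Prop}

/-- all pairs of a planar list -/
theorem pairwise {E : α → Prop} (hu : ∀ a b b' t t', R a b t → E b → R a b' t' → E b' →
      b = b' ∧ t = t') (hs : ∀ a b t, R a b t → R b a (-t)) {L : List (α × ℤ)} (h : Pl R L)
    (hE : ∀ p ∈ L, E p.1) (hd : (L.map Prod.fst).Nodup) :
    L.Pairwise fun p q => ∀ t, R p.1 q.1 t → t = q.2 - p.2 - 2 := by
  induction h with
  | nil => exact List.Pairwise.nil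
  | @arc a b d e l m hR h1 h2 ih1 ih2 =>
    have hEb : E b := hE (b, e) (by simp)
    have hEa : E a := hE (a, d) (by simp)
    simp only [List.map_cons, List.map_append, List.nodup_cons, List.nodup_append, List.mem_append,
      List.mem_cons, List.mem_map] at hd
    obtain ⟨da, dl, ⟨db, dm⟩, dlm⟩ := hd
    rw [List.pairwise_cons]
    refine ⟨fun q hq t ht => ?_, ?_⟩
    · have h3 := hu _ _ _ _ _ ht (hE q (by simp only [List.mem_cons]; exact Or.inr hq)) hR hEb
      rw [List.mem_append, List.mem_cons] at hq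
      rcases hq with hq | rfl | hq
      · exact absurd rfl (dlm q.1 ⟨q, hq, rfl⟩ b (Or.inl rfl) |> fun h => h3.1 ▸ h)
      · exact h3.2
      · exact absurd ⟨q, hq, h3.1⟩ db
    · rw [List.pairwise_append]
      refine ⟨ih1 (fun p hp => hE p (by simp [hp])) dl, ?_, ?_⟩
      · rw [List.pairwise_cons]
        refine ⟨fun q hq t ht => ?_, ih2 (fun p hp => hE p (by simp [hp])) dm⟩
        have h3 := hu _ _ _ _ _ ht (hE q (by simp [hq])) (hs _ _ _ hR) hEa
        exact absurd (Or.inr (Or.inr ⟨q, hq, h3.1⟩)) da
      · intro p hp q hq t ht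
        exfalso
        obtain ⟨p', hp', t', ht'⟩ := h1.exists_mate hs p hp
        have h3 := hu _ _ _ _ _ ht (hE q (List.mem_cons_of_mem _
          (List.mem_append_right _ hq))) ht' (hE p' (by simp [hp']))
        rw [List.mem_cons] at hq
        refine dlm p'.1 ⟨p', hp', rfl⟩ q.1 ?_ h3.1.symm
        rcases hq with rfl | hq
        · exact Or.inl rfl
        · exact Or.inr ⟨q, hq, rfl⟩

end Pl

variable {τ : Type*} {T : Finset τ} {g : Half τ → Half τ}

open Classical in
/-- the number of tiles at the head of a boundary half edge -/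
noncomputable def ks (g : Half τ → Half τ) (x : Half τ) : ℕ :=
  if h : ∃ k, 1 ≤ k ∧ g ((rot g)^[k] x) = (rot g)^[k] x then Nat.find h else 0

/-- the direction change of the boundary from `x` to `next g x`, in quarter turns -/
noncomputable def bt (g : Half τ → Half τ) (x : Half τ) : ℤ := 2 - ks g x

lemma ks_of {x : Half τ} {k : ℕ} (hk : 1 ≤ k) (h : g ((rot g)^[k] x) = (rot g)^[k] x)
    (h' : ∀ j, 1 ≤ j → j < k → g ((rot g)^[j] x) ≠ (rot g)^[j] x) :
    ks g x = k ∧ next g x = (rot g)^[k] x := by
  classical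
  have hex : ∃ k, 1 ≤ k ∧ g ((rot g)^[k] x) = (rot g)^[k] x := ⟨k, hk, h⟩
  have h1 : Nat.find hex = k := by
    rw [Nat.find_eq_iff]
    exact ⟨⟨hk, h⟩, fun j hj h2 => h' j h2.1 hj h2.2⟩
  unfold ks next
  rw [dif_pos hex, dif_pos hex, h1]
  exact ⟨rfl, rfl⟩

/-- `bt` and `next` are computed by rotating -/
lemma bt_of {x : Half τ} {k : ℕ} (hk : 1 ≤ k) (h : g ((rot g)^[k] x) = (rot g)^[k] x)
    (h' : ∀ j, 1 ≤ j → j < k → g ((rot g)^[j] x) ≠ (rot g)^[j] x) :
    bt g x = 2 - k ∧ next g x = (rot g)^[k] x := by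
  obtain ⟨h1, h2⟩ := ks_of hk h h'
  unfold bt
  rw [h1]
  exact ⟨rfl, h2⟩

lemma ks_spec (hG : Glu T g) {x : Half τ} (hx : g x = x) : 1 ≤ ks g x ∧
    next g x = (rot g)^[ks g x] x ∧
    ∀ j, 1 ≤ j → j < ks g x → g ((rot g)^[j] x) ≠ (rot g)^[j] x := by
  obtain ⟨k, hk, h1, h2, h3⟩ := hG.next_spec hx
  obtain ⟨h4, -⟩ := ks_of hk (by rw [← h1]; exact h2) h3
  rw [h4]
  exact ⟨hk, h1, h3⟩

/-- the labels along the boundary -/
noncomputable def lb (g : Half τ → Half τ) (x : Half τ) (n : ℕ) : ℤ :=
  ∑ i ∈ Finset.range n, bt g ((next g)^[i] x)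

/-- the number of rotation steps -/
noncomputable def st (g : Half τ → Half τ) (x : Half τ) (n : ℕ) : ℕ :=
  ∑ i ∈ Finset.range n, ks g ((next g)^[i] x)

lemma fix_iter (hG : Glu T g) {x : Half τ} (hx : g x = x) (n : ℕ) :
    g ((next g)^[n] x) = (next g)^[n] x := by
  induction n with
  | zero => exact hx
  | succ n ih => rw [iterate_succ_apply']; exact hG.next_fix ih

lemma rot_ne (hG : Glu T g) {x : Half τ} (hx : g x = x) (n : ℕ)
    (hn : ∀ j, 0 < j → j < n → (next g)^[j] x ≠ x) :
    (rot g)^[st g x n] x = (next g)^[n] x ∧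
    ∀ i, 0 < i → i < st g x n → (rot g)^[i] x ≠ x := by
  induction n with
  | zero => exact ⟨rfl, fun i h1 h2 => by simp [st] at h2⟩
  | succ n ih =>
    obtain ⟨ih1, ih2⟩ := ih fun j h1 h2 => hn j h1 (by omega)
    have e1 : st g x (n + 1) = ks g ((next g)^[n] x) + st g x n := by
      unfold st
      rw [Finset.sum_range_succ, Nat.add_comm]
    obtain ⟨k1, k2, k3⟩ := ks_spec hG (fix_iter hG hx n)
    refine ⟨?_, ?_⟩
    · rw [e1, iterate_add_apply, ih1, iterate_succ_apply', ← k2]
    · intro i h1 h2
      rcases Nat.lt_or_ge i (st g x n) with h3 | h3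
      · exact ih2 i h1 h3
      · obtain ⟨r, rfl⟩ : ∃ r, i = r + st g x n := ⟨i - st g x n, by omega⟩
        rw [iterate_add_apply, ih1]
        rcases Nat.eq_zero_or_pos r with h4 | h4
        · subst h4
          have h5 : 0 < n := by
            rcases Nat.eq_zero_or_pos n with h6 | h6
            · subst h6; simp [st] at h1
            · exact h6
          exact hn n h5 (by omega)
        · intro h5
          have h6 := k3 r h4 (by omega)
          rw [h5] at h6
          exact h6 hx

/-- the exact period of the rotation -/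
lemma per_st (hG : Glu T g) {x : Half τ} (hx : Bd T g x) :
    Per (rot g) (st g x (minimalPeriod (next g) x)) x := by
  set N := minimalPeriod (next g) x with hN
  have hNpos : 0 < N := minimalPeriod_pos_of_mem_periodicPts (hG.next_periodic hx)
  have hper : (next g)^[N] x = x := iterate_minimalPeriod
  obtain ⟨h1, h2⟩ := rot_ne hG hx.2 N fun j h1 h2 h3 =>
    not_isPeriodicPt_of_pos_of_lt_minimalPeriod (by omega) h2 h3
  refine ⟨?_, by rw [h1, hper], h2⟩
  obtain ⟨m, hm⟩ : ∃ m, N = m + 1 := ⟨N - 1, by omega⟩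
  have e1 : st g x (m + 1) = st g x m + ks g ((next g)^[m] x) := by
    unfold st
    rw [Finset.sum_range_succ]
  rw [hm, e1]
  have := (ks_spec hG (fix_iter hG hx.2 m)).1
  omega

variable [DecidableEq τ] {ω : Finset τ}

lemma bcyc_nil' {p : Half τ × ℤ} {n : ℕ} (h : ∀ j < n, g ((rot g)^[j] p.1) ≠ (rot g)^[j] p.1) :
    bcyc g p n = [] := by
  unfold bcyc cyc
  rw [List.filter_eq_nil_iff]
  intro q hq
  simp only [List.mem_map, List.mem_range] at hq
  obtain ⟨j, hj, rfl⟩ := hq
  simp only [decide_eq_true_eq]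
  rw [nx_fst]
  exact h j hj

lemma nx_glued {p : Half τ × ℤ} {n : ℕ} (h : ∀ j < n, g ((rot g)^[j] p.1) ≠ (rot g)^[j] p.1) :
    (nx g)^[n] p = ((rot g)^[n] p.1, p.2 - n) := by
  induction n with
  | zero => simp
  | succ n ih =>
    rw [iterate_succ_apply', ih fun j hj => h j (by omega)]
    unfold nx inc
    rw [if_neg (h n (by omega)), iterate_succ_apply']
    refine Prod.ext rfl ?_
    push_cast
    ring

/-- one step of `next` on the labelled cycle -/
lemma nx_next (hG : Glu T g) {x : Half τ} (hx : g x = x) (d : ℤ) :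
    (nx g)^[ks g x] (x, d) = (next g x, d + bt g x) := by
  obtain ⟨h1, h2, h3⟩ := ks_spec hG hx
  obtain ⟨k, hk⟩ : ∃ k, ks g x = k + 1 := ⟨ks g x - 1, by omega⟩
  rw [hk] at h2 h3
  have h4 : nx g (x, d) = (rot g x, d + 1) := by
    unfold nx inc; rw [if_pos hx]
  rw [hk, iterate_succ_apply, h4, nx_glued fun j hj => by
    show g ((rot g)^[j] (rot g x)) ≠ (rot g)^[j] (rot g x)
    rw [← iterate_succ_apply]; exact h3 (j + 1) (by omega) (by omega)]
  refine Prod.ext ?_ ?_
  · show (rot g)^[k] (rot g x) = next g x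
    rw [h2, iterate_succ_apply]
  · show d + 1 - k = d + bt g x
    unfold bt
    rw [hk]
    push_cast
    ring

lemma bcyc_next (hG : Glu T g) {x : Half τ} (hx : g x = x) (d : ℤ) :
    bcyc g (x, d) (ks g x) = [(x, d)] := by
  obtain ⟨h1, h2, h3⟩ := ks_spec hG hx
  obtain ⟨k, hk⟩ : ∃ k, ks g x = k + 1 := ⟨ks g x - 1, by omega⟩
  have h4 : nx g (x, d) = (rot g x, d + 1) := by
    unfold nx inc; rw [if_pos hx]
  rw [hk] at h3
  rw [hk, Nat.add_comm, bcyc_add, bcyc_one, if_pos hx, iterate_one, h4, bcyc_nil' fun j hj => by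
    show g ((rot g)^[j] (rot g x)) ≠ (rot g)^[j] (rot g x)
    rw [← iterate_succ_apply]; exact h3 (j + 1) (by omega) (by omega)]
  rfl

lemma nx_st (hG : Glu T g) {x : Half τ} (hx : g x = x) (d : ℤ) (n : ℕ) :
    (nx g)^[st g x n] (x, d) = ((next g)^[n] x, d + lb g x n) := by
  induction n with
  | zero => simp [st, lb]
  | succ n ih =>
    have e1 : st g x (n + 1) = ks g ((next g)^[n] x) + st g x n := by
      unfold st
      rw [Finset.sum_range_succ, Nat.add_comm]
    have e2 : lb g x (n + 1) = lb g x n + bt g ((next g)^[n] x) := by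
      unfold lb
      rw [Finset.sum_range_succ]
    rw [e1, iterate_add_apply, ih, nx_next hG (fix_iter hG hx n), e2, iterate_succ_apply', add_assoc]

lemma bcyc_st (hG : Glu T g) {x : Half τ} (hx : g x = x) (d : ℤ) (n : ℕ) :
    bcyc g (x, d) (st g x n) = (List.range n).map fun j => ((next g)^[j] x, d + lb g x j) := by
  induction n with
  | zero => simp [st, bcyc, cyc]
  | succ n ih =>
    have e1 : st g x (n + 1) = st g x n + ks g ((next g)^[n] x) := by
      unfold st
      rw [Finset.sum_range_succ]
    rw [e1, bcyc_add, ih, nx_st hG hx, bcyc_next hG (fix_iter hG hx n), List.range_succ,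
      List.map_append]
    rfl

section main
variable (hG : Glu T g) (hs : Straight g) (hf : Flat T g) (ho : Open T g) (hsc : SC T g)
include hG hs hf ho hsc

/-- the law at a boundary half edge -/
lemma law_bd (ω : Finset τ) {x : Half τ} (hx : Bd T g x) :
    LawAt ω g (x, 0) (st g x (minimalPeriod (next g) x)) :=
  law hG hs hf ho hsc ω x 0 _ hx.1 (per_st hG hx) ⟨0, hx.2⟩

/-- **the boundary turns by four quarter turns** -/
theorem total {x : Half τ} (hx : Bd T g x) : lb g x (minimalPeriod (next g) x) = 4 := by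
  have h1 := (law_bd hG hs hf ho hsc ∅ hx).close
  rw [nx_st hG hx.2] at h1
  have h2 := congrArg Prod.snd h1
  simpa using h2

/-- the law for two boundary half edges of one cycle -/
theorem law_two (ω : Finset τ) {x : Half τ} (hx : Bd T g x) {j k : ℕ} (hjk : j < k)
    (hk : k < minimalPeriod (next g) x) {t : ℤ}
    (hr : Run ω g ((next g)^[j] x) ((next g)^[k] x) t) : t = lb g x k - lb g x j - 2 := by
  have h1 := (law_bd hG hs hf ho hsc ω hx).pl
  rw [bcyc_st hG hx.2] at h1
  have h2 := h1.pairwise (E := fun z => g z = z)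
    (fun a b b' t t' h1 h2 h3 h4 => h1.unique h2 h3 h4) (fun a b t h => h.symm hG.inv)
    (by
      intro p hp
      rw [List.mem_map] at hp
      obtain ⟨j, -, rfl⟩ := hp
      exact fix_iter hG hx.2 j)
    (by
      rw [List.map_map]
      apply List.Nodup.map_on _ List.nodup_range
      intro a ha b hb hab
      exact iterate_injOn_Iio_minimalPeriod (f := next g) (x := x) (List.mem_range.1 ha)
        (List.mem_range.1 hb) hab)
  rw [List.pairwise_map, List.pairwise_iff_getElem] at h2
  have h3 := h2 j k (by rw [List.length_range]; omega) (by rw [List.length_range]; exact hk) hjk t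
  simp only [List.getElem_range] at h3
  have h4 := h3 hr
  omega

/-- **the turning law**: the strand from `e` to `next^n e` -/
theorem law_next (ω : Finset τ) {e : Half τ} (he : Bd T g e) {n : ℕ} (h0 : 0 < n)
    (hn : n < minimalPeriod (next g) e) (ho' : other (mate ω) g e = (next g)^[n] e) :
    turn ω g e = lb g e n - 2 := by
  have h1 := run_other (ω := ω) hG he.2
  rw [ho'] at h1
  have h2 := law_two hG hs hf ho hsc ω he (j := 0) h0 hn h1
  rw [h2]
  simp [lb]

/-- the turning law with positions along the boundary -/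
theorem law_pos (ω : Finset τ) {b e : Half τ} (hb : Bd T g b) (he : On T g b e)
    (hlt : bpos g b e < bpos g b (other (mate ω) g e)) :
    turn ω g e = lb g b (bpos g b (other (mate ω) g e)) - lb g b (bpos g b e) - 2 := by
  have h1 := run_other (ω := ω) hG he.bd.2
  have he' := hG.on_other he ω
  have h2 := hG.pos_spec hsc hb he
  have h3 := hG.pos_spec hsc hb he'
  rw [← h2] at h1
  have h4 : Run ω g ((next g)^[bpos g b e] b) ((next g)^[bpos g b (other (mate ω) g e)] b)
      (turn ω g e) := by
    rw [h2, h3]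
    rw [h2] at h1
    exact h1
  exact law_two hG hs hf ho hsc ω hb hlt (hG.pos_lt hsc hb he') h4

/-- the turning law with a function `th` which increases by `bt` along the boundary -/
theorem law_th (ω : Finset τ) {b : Half τ} (hb : Bd T g b) (th : Half τ → ℤ)
    (hth : ∀ x, On T g b x → next g x ≠ b → th (next g x) = th x + bt g x) {e : Half τ}
    (he : On T g b e) (hlt : bpos g b e < bpos g b (other (mate ω) g e)) :
    turn ω g e = th (other (mate ω) g e) - th e - 2 := by
  have key : ∀ n, n < minimalPeriod (next g) b → th ((next g)^[n] b) = th b + lb g b n := by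
    intro n
    induction n with
    | zero => intro _; simp [lb]
    | succ n ih =>
      intro hn
      have h1 := hth _ (hG.on_iter hb n) (by
        rw [← iterate_succ_apply' (next g)]
        intro h2
        exact not_isPeriodicPt_of_pos_of_lt_minimalPeriod (by omega) hn h2)
      rw [iterate_succ_apply', h1, ih (by omega)]
      unfold lb
      rw [Finset.sum_range_succ]
      ring
  have he' := hG.on_other he ω
  have h2 := key _ (hG.pos_lt hsc hb he)
  have h3 := key _ (hG.pos_lt hsc hb he')
  rw [hG.pos_spec hsc hb he] at h2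
  rw [hG.pos_spec hsc hb he'] at h3
  rw [law_pos hG hs hf ho hsc ω hb he hlt, h2, h3]
  ring

end main

end Full.Turn
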