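import Pool.Agent.Full.Turn.SCcut

/-!
# The turning law for simply connected flat regions
-/

set_option autoImplicit false

namespace Full.Turn
open Function Relation Full

variable {τ : Type*} [DecidableEq τ] {T : Finset τ} {g : Half τ → Half τ} {ω : Finset τ}

/-- the law for all boundary cycles -/
def Law (T : Finset τ) (g : Half τ → Half τ) (ω : Finset τ) : Prop :=
  ∀ (z : Half τ) (d : ℤ) (n : ℕ), z.1 ∈ T → Per (rot g) n z →
    (∃ j, g ((rot g)^[j] z) = (rot g)^[j] z) → LawAt ω g (z, d) n

lemma Per.eq {α : Type*} {f : α → α} {m n : ℕ} {a : α} (h : Per f m a) (h' : Per f n a) : m = n := by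
  rcases lt_trichotomy m n with hl | hl | hl
  · exact absurd h.2.1 (h'.2.2 m h.1 hl)
  · exact hl
  · exact absurd h'.2.1 (h.2.2 n h'.1 hl)

lemma Per.back {α : Type*} {f : α → α} {n : ℕ} {a : α} (h : Per f n a) (j : ℕ) :
    ∃ k, f^[k] (f^[j] a) = a := by
  have h1 : j % n < n := Nat.mod_lt _ h.1
  refine ⟨n - j % n, ?_⟩
  rw [h.mod j, ← iterate_add_apply, show n - j % n + j % n = n by omega, h.2.1]

lemma Pl.Jn.symm {α : Type*} {R R' : α → α → ℤ → Prop} {x y : α} (J : Pl.Jn R' R x y) :
    Pl.Jn R' R y x :=
  ⟨J.mono, fun _ _ _ _ h1 h2 => J.joi2 _ _ _ _ h2 h1, fun _ _ _ _ h1 h2 => J.join _ _ _ _ h2 h1⟩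

/-- isolated tiles -/
lemma law_base (h : ∀ z : Half τ, z.1 ∈ T → g z = z) : Law T g ω := by
  intro z d n hz hn _
  have r1 : ∀ w : Half τ, w.1 ∈ T → rot g w = rho w := fun w hw => by unfold rot; rw [h w hw]
  have n1 : ∀ (w : Half τ) (e : ℤ), w.1 ∈ T → nx g (w, e) = (rho w, e + 1) := fun w e hw => by
    unfold nx inc
    rw [r1 w hw, if_pos (h w hw)]
  have h4 : Per (rot g) 4 z := by
    refine ⟨by norm_num, ?_, ?_⟩
    · show rot g (rot g (rot g (rot g z))) = z
      rw [r1 z hz, r1 (rho z) hz, r1 (rho (rho z)) hz, r1 (rho (rho (rho z))) hz,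
        rho_rho_rho_rho]
    · intro j h1 h2 h3
      obtain ⟨t, dd⟩ := z
      have e1 : rot g (t, dd) = rho (t, dd) := r1 _ hz
      have e2 : rot g (rho (t, dd)) = rho (rho (t, dd)) := r1 _ hz
      have e3 : rot g (rho (rho (t, dd))) = rho (rho (rho (t, dd))) := r1 _ hz
      interval_cases j
      · have h3 : rot g (t, dd) = (t, dd) := h3
        rw [e1] at h3
        cases dd <;> simp [rho, Dir.ccw] at h3
      · have h3 : rot g (rot g (t, dd)) = (t, dd) := h3
        rw [e1, e2] at h3
        cases dd <;> simp [rho, Dir.ccw] at h3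
      · have h3 : rot g (rot g (rot g (t, dd))) = (t, dd) := h3
        rw [e1, e2, e3] at h3
        cases dd <;> simp [rho, Dir.ccw] at h3
  obtain rfl := hn.eq h4
  have i1 : (nx g)^[1] (z, d) = (rho z, d + 1) := n1 z d hz
  have i2 : (nx g)^[2] (z, d) = (rho (rho z), d + 1 + 1) := by
    rw [iterate_succ_apply', i1]; exact n1 _ _ hz
  have i3 : (nx g)^[3] (z, d) = (rho (rho (rho z)), d + 1 + 1 + 1) := by
    rw [iterate_succ_apply', i2]; exact n1 _ _ hz
  have i4 : (nx g)^[4] (z, d) = (rho (rho (rho (rho z))), d + 1 + 1 + 1 + 1) := by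
    rw [iterate_succ_apply', i3]; exact n1 _ _ hz
  refine ⟨?_, ?_⟩
  · rw [i4, rho_rho_rho_rho]
    simp only [Prod.mk.injEq, true_and]
    ring
  · have e : bcyc g (z, d) 4 = [(z, d), (rho z, d + 1), (rho (rho z), d + 1 + 1),
        (rho (rho (rho z)), d + 1 + 1 + 1)] := by
      unfold bcyc cyc
      have : (List.range 4).map (fun j => (nx g)^[j] (z, d)) = [(z, d), (rho z, d + 1),
          (rho (rho z), d + 1 + 1), (rho (rho (rho z)), d + 1 + 1 + 1)] := by
        simp only [List.range_succ, List.range_zero, List.map_cons, List.map_nil,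
          List.nil_append, List.cons_append, i1, i2, i3, iterate_zero, id]
      rw [this]
      simp [h z hz, h (rho z) hz, h (rho (rho z)) hz, h (rho (rho (rho z))) hz]
    rw [e]
    have m1 : mate ω (mate ω z) = z := mate_mate ω z
    rcases mate_cases ω z with hm | hm
    · -- arcs `z - rho z` and `rho rho z - rho rho rho z`
      have hm2 : mate ω (rho (rho z)) = rho (rho (rho z)) := by
        obtain ⟨t, dd⟩ := z
        unfold mate rho at hm ⊢
        simp only [Prod.mk.injEq, true_and] at hm ⊢
        revert hm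
        cases dd <;> cases (decide (t ∈ ω)) <;> decide
      have a1 : Run ω g z (rho z) ((d + 1) - d - 2) := by
        have h1 : Run ω g z (mate ω z) (tq ω z) := Run.one
        rw [hm] at h1
        have h2 : tq ω z = (d + 1) - d - 2 := by
          unfold tq; rw [if_pos hm]; ring
        rwa [h2] at h1
      have a2 : Run ω g (rho (rho z)) (rho (rho (rho z))) ((d + 1 + 1 + 1) - (d + 1 + 1) - 2) := by
        have h1 : Run ω g (rho (rho z)) (mate ω (rho (rho z))) (tq ω (rho (rho z))) := Run.one
        rw [hm2] at h1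
        have h2 : tq ω (rho (rho z)) = (d + 1 + 1 + 1) - (d + 1 + 1) - 2 := by
          unfold tq; rw [if_pos hm2]; ring
        rwa [h2] at h1
      have p2 : Pl (Run ω g) ((rho (rho z), d + 1 + 1) ::
          ([] ++ (rho (rho (rho z)), d + 1 + 1 + 1) :: [])) := Pl.arc a2 Pl.nil Pl.nil
      have p1 := Pl.arc (l := []) a1 Pl.nil p2
      simpa using p1
    · -- arcs `z - rho rho rho z` and `rho z - rho rho z`
      have hm0 : mate ω z = rho (rho (rho z)) := by
        apply rho_inj
        rw [hm, rho_rho_rho_rho]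
      have hm2 : mate ω (rho z) = rho (rho z) := by
        obtain ⟨t, dd⟩ := z
        unfold mate rho at hm0 ⊢
        simp only [Prod.mk.injEq, true_and] at hm0 ⊢
        revert hm0
        cases dd <;> cases (decide (t ∈ ω)) <;> decide
      have hne : mate ω z ≠ rho z := by
        intro h1
        rw [h1] at hm
        exact rho_rho_ne z hm
      have a1 : Run ω g z (rho (rho (rho z))) ((d + 1 + 1 + 1) - d - 2) := by
        have h1 : Run ω g z (mate ω z) (tq ω z) := Run.one
        rw [hm0] at h1
        have h2 : tq ω z = (d + 1 + 1 + 1) - d - 2 := by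
          unfold tq; rw [if_neg hne]; ring
        rwa [h2] at h1
      have a2 : Run ω g (rho z) (rho (rho z)) ((d + 1 + 1) - (d + 1) - 2) := by
        have h1 : Run ω g (rho z) (mate ω (rho z)) (tq ω (rho z)) := Run.one
        rw [hm2] at h1
        have h2 : tq ω (rho z) = (d + 1 + 1) - (d + 1) - 2 := by
          unfold tq; rw [if_pos hm2]; ring
        rwa [h2] at h1
      have p2 : Pl (Run ω g) ((rho z, d + 1) :: ([] ++ (rho (rho z), d + 1 + 1) :: [])) :=
        Pl.arc a2 Pl.nil Pl.nil
      have p1 := Pl.arc (m := []) a1 p2 Pl.nil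
      simpa using p1

omit [DecidableEq τ] in
/-- a glued side whose tail is a boundary corner -/
lemma exists_side (hG : Glu T g) (ho : Open T g) {z : Half τ} (hz : z.1 ∈ T) (h : g z ≠ z) :
    ∃ x : Half τ, x.1 ∈ T ∧ g x ≠ x ∧ ∃ j, g ((rot g)^[j] x) = (rot g)^[j] x := by
  by_contra hno
  push Not at hno
  have key : ∀ u : Half τ, u.1 ∈ T → g u ≠ u → g (rho u) ≠ rho u := by
    intro u hu hgu
    have h1 := hno (g u) (hG.mem u hu) (by rw [hG.inv]; exact Ne.symm hgu) 1
    have h2 : (rot g)^[1] (g u) = rho u := by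
      show rho (g (g u)) = rho u
      rw [hG.inv]
    rwa [h2] at h1
  obtain ⟨w, hw, fw⟩ := ho z hz
  have hall : ∀ w, Reach g z w → w.1 ∈ T ∧ g w ≠ w := by
    intro w hw
    induction hw with
    | refl => exact ⟨hz, h⟩
    | @tail b c _ hbc ih =>
      rcases hbc with rfl | rfl
      · exact ⟨ih.1, key b ih.1 ih.2⟩
      · exact ⟨hG.mem b ih.1, by rw [hG.inv]; exact Ne.symm ih.2⟩
  exact (hall w hw).2 fw

lemma bcyc_nil {p : Half τ × ℤ} {n : ℕ} (h : ∀ j < n, g ((rot g)^[j] p.1) ≠ (rot g)^[j] p.1) :
    bcyc g p n = [] := by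
  unfold bcyc cyc
  rw [List.filter_eq_nil_iff]
  intro q hq
  simp only [List.mem_map, List.mem_range] at hq
  obtain ⟨j, hj, rfl⟩ := hq
  have := h j hj
  rw [← nx_fst] at this
  simpa using this

section step
variable {x y : Half τ}

lemma flat_ung (hf : Flat T g) : Flat T (ung g x y) := by
  intro z hz h
  have hav : ∀ k, (rot (ung g x y))^[k] z ≠ x ∧ (rot (ung g x y))^[k] z ≠ y := by
    intro k
    exact ung_ne (h k)
  have hit : ∀ k, (rot (ung g x y))^[k] z = (rot g)^[k] z := by
    intro k
    induction k with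
    | zero => rfl
    | succ k ih =>
      rw [iterate_succ_apply', iterate_succ_apply', ← ih, rot_ung_o (hav k).1 (hav k).2]
  rw [hit]
  refine hf z hz fun k => ?_
  rw [← hit k]
  intro h2
  exact h k (by rw [ung_o (hav k).1 (hav k).2]; exact h2)

lemma open_ung (ho : Open T g) : Open T (ung g x y) := by
  intro z hz
  obtain ⟨w, hw, fw⟩ := ho z hz
  clear hz
  induction hw using ReflTransGen.head_induction_on with
  | refl =>
    refine ⟨w, ReflTransGen.refl, ?_⟩
    unfold ung
    split_ifs
    · rfl
    · exact fw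
  | @head a b hab _ ih =>
    obtain ⟨w', hw', fw'⟩ := ih
    rcases hab with rfl | rfl
    · exact ⟨w', ReflTransGen.head (Or.inl rfl) hw', fw'⟩
    · by_cases h1 : a = x
      · exact ⟨a, ReflTransGen.refl, by rw [h1]; exact ung_x⟩
      · by_cases h2 : a = y
        · exact ⟨a, ReflTransGen.refl, by rw [h2]; exact ung_y⟩
        · exact ⟨w', ReflTransGen.head (Or.inr (ung_o h1 h2).symm) hw', fw'⟩

omit [DecidableEq τ] in
lemma reach_orb (k : ℕ) (z : Half τ) : Reach g z ((rot g)^[k] z) := by
  induction k with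
  | zero => exact ReflTransGen.refl
  | succ k ih =>
    rw [iterate_succ_apply']
    exact (ih.tail (Or.inr rfl)).tail (Or.inl rfl)

lemma law_step (hG : Glu T g) (hf : Flat T g) (hs : Straight g) (hsc : SC T g) (hx : x.1 ∈ T)
    (hxy : g x = y) (hne : x ≠ y) (hb : ∃ j, g ((rot g)^[j] x) = (rot g)^[j] x)
    (IH : Law T (ung g x y) ω) : Law T g ω := by
  set g' := ung g x y with hg'
  have hG' : Glu T g' := glu_ung hG hxy
  have hyx : g y = x := by rw [← hxy, hG.inv]
  have hy : y.1 ∈ T := by rw [← hxy]; exact hG.mem x hx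
  have fx : g' x = x := ung_x
  have fy : g' y = y := ung_y
  have J := jn hG.inv hxy hne ω
  rw [← hg'] at J
  have rxy : rho x = rot g y := by unfold rot; rw [hyx]
  have ryx : rho y = rot g x := by unfold rot; rw [hxy]
  have nx_x : ∀ e, nx g' (x, e) = (rot g y, e + 1) := fun e => by
    unfold nx inc
    rw [if_pos fx]
    show (rot g' x, _) = _
    rw [hg', rot_ung_x, rxy]
  have nx_y : ∀ e, nx g' (y, e) = (rot g x, e + 1) := fun e => by
    unfold nx inc
    rw [if_pos fy]
    show (rot g' y, _) = _
    rw [hg', rot_ung_y, ryx]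
  have nxg_x : ∀ e, nx g (x, e) = (rot g x, e + -1) := fun e => by
    unfold nx inc
    rw [if_neg (by rw [hxy]; exact hne.symm)]
  have nxg_y : ∀ e, nx g (y, e) = (rot g y, e + -1) := fun e => by
    unfold nx inc
    rw [if_neg (by rw [hyx]; exact hne)]
  have b_x : ∀ e, bcyc g' (x, e) 1 = [(x, e)] := fun e => by rw [bcyc_one, if_pos fx]
  have b_y : ∀ e, bcyc g' (y, e) 1 = [(y, e)] := fun e => by rw [bcyc_one, if_pos fy]
  have bg_x : ∀ e, bcyc g (x, e) 1 = [] := fun e => by
    rw [bcyc_one, if_neg (by rw [hxy]; exact hne.symm)]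
  have bg_y : ∀ e, bcyc g (y, e) 1 = [] := fun e => by
    rw [bcyc_one, if_neg (by rw [hyx]; exact hne)]
  intro z d n hz hn hfz
  have hri := hG.rot_inj
  by_cases hav : ∀ j, (rot g)^[j] z ≠ x ∧ (rot g)^[j] z ≠ y
  · -- the cycle does not see the change
    have hit : ∀ k, (nx g')^[k] (z, d) = (nx g)^[k] (z, d) := fun k =>
      nx_ung_iter (p := (z, d)) (n := k) (fun j _ => hav j) k le_rfl
    have hit1 : ∀ k, (rot g')^[k] z = (rot g)^[k] z := fun k => by
      have h1 := nx_fst (g := g') k (z, d)
      have h2 := nx_fst (g := g) k (z, d)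
      rw [hit k, h2] at h1
      exact h1.symm
    have h1 := IH z d n hz ⟨hn.1, by rw [hit1]; exact hn.2.1, fun j hj1 hj2 => by
      rw [hit1]; exact hn.2.2 j hj1 hj2⟩ (by
        obtain ⟨j, hj⟩ := hfz
        exact ⟨j, by rw [hit1, hg', ung_o (hav j).1 (hav j).2]; exact hj⟩)
    refine ⟨?_, ?_⟩
    · rw [← hit]; exact h1.close
    · have h2 := h1.pl
      rw [hg', bcyc_ung (p := (z, d)) (fun j _ => hav j), ← hg'] at h2
      exact h2.mono J.mono
  · -- the cycle contains `x` or `y`
    have hcon : ∃ j, (rot g)^[j] z = x ∨ (rot g)^[j] z = y := by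
      by_contra h
      push Not at h
      exact hav h
    by_cases hj : ∃ k, (rot g)^[k] x = y
    · -- join of two cycles
      obtain ⟨k0, hk0⟩ := hj
      obtain ⟨n0, hn0⟩ := Per.exists (hG.rot_periodic x)
      have hnx : Per (rot g) n x := by
        obtain ⟨j, hj | hj⟩ := hcon
        · rw [← hj]; exact hn.iter hri j
        · have h1 : Per (rot g) n y := by rw [← hj]; exact hn.iter hri j
          have h2 : Per (rot g) n0 y := by rw [← hk0]; exact hn0.iter hri k0
          rw [h1.eq h2]; exact hn0
      have hzx : ∃ k, (rot g)^[k] (rot g x) = z := by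
        obtain ⟨j, hj | hj⟩ := hcon
        · obtain ⟨k, hk⟩ := hn.back (j + 1)
          rw [iterate_succ_apply', hj] at hk
          exact ⟨k, hk⟩
        · obtain ⟨i, hi⟩ := hn0.back k0
          rw [hk0] at hi
          -- rot^[i] y = x
          obtain ⟨k, hk⟩ := hn.back (i + j + 1)
          rw [iterate_succ_apply', iterate_add_apply, hj, hi] at hk
          exact ⟨k, hk⟩
      refine LawAt.of_orbit hG.inv hn.1 (w := rot g x) (d := 0) d ?_ hzx
      -- `y = rot^[k] x`, `0 < k < n`
      obtain ⟨k, hkn, hk⟩ : ∃ k, k < n ∧ (rot g)^[k] x = y :=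
        ⟨k0 % n, Nat.mod_lt _ hn.1, by rw [← hnx.mod]; exact hk0⟩
      have hk1 : 0 < k := by
        rcases Nat.eq_zero_or_pos k with h | h
        · rw [h] at hk; exact absurd hk hne
        · exact h
      obtain ⟨m, rfl⟩ : ∃ m, k = m + 1 := ⟨k - 1, by omega⟩
      obtain ⟨l, rfl⟩ : ∃ l, n = m + 1 + (l + 1) := ⟨n - (m + 1) - 1, by omega⟩
      -- first part
      have v1 : ∀ j < m, (rot g)^[j] (rot g x) ≠ x ∧ (rot g)^[j] (rot g x) ≠ y := by
        intro j hj
        rw [← iterate_succ_apply]
        refine ⟨hnx.2.2 _ (by omega) (by omega), fun h => ?_⟩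
        have := hnx.inj_on hri (i := j.succ) (j := m + 1) (by omega) (by omega) (by rw [h, hk])
        omega
      obtain ⟨dy, hdy⟩ : ∃ dy, (nx g)^[m] (rot g x, 0) = (y, dy) := by
        refine ⟨((nx g)^[m] (rot g x, 0)).2, ?_⟩
        refine Prod.ext ?_ rfl
        rw [nx_fst, ← iterate_succ_apply]
        exact hk
      have hdy' : (nx g')^[m] (rot g x, 0) = (y, dy) := by
        rw [hg', nx_ung_iter (p := (rot g x, 0)) (n := m) v1 m le_rfl, hdy]
      have P1 : Per (rot g') (m + 1) (rot g x) := by
        have e : ∀ j ≤ m, (rot g')^[j] (rot g x) = (rot g)^[j] (rot g x) := by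
          intro j hj
          have h1 := nx_ung_iter (p := (rot g x, (0 : ℤ))) (n := m) v1 j hj
          have h2 := congrArg Prod.fst h1
          rw [nx_fst, nx_fst] at h2
          exact h2
        refine ⟨by omega, ?_, ?_⟩
        · have h1 := nx_fst (g := g') (m + 1) (rot g x, (0 : ℤ))
          rw [iterate_succ_apply', hdy', nx_y] at h1
          exact h1.symm
        · intro j hj1 hj2
          rw [e j (by omega), ← iterate_succ_apply]
          intro h
          have := hnx.inj_on hri (i := j.succ) (j := 1) (by omega) (by omega) (by rw [h]; rfl)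
          omega
      have L1 := IH (rot g x) 0 (m + 1) (by exact hG.mem x hx) P1 ⟨m, by
        have h1 := nx_fst (g := g') m (rot g x, (0 : ℤ))
        rw [hdy'] at h1
        rw [← h1]
        exact fy⟩
      have c1 := L1.close
      rw [iterate_succ_apply', hdy', nx_y] at c1
      have c1' : dy + 1 = 0 + 4 := congrArg Prod.snd c1
      have p1 := L1.pl
      rw [bcyc_add, hdy', b_y, hg', bcyc_ung (p := (rot g x, (0 : ℤ))) v1, ← hg'] at p1
      -- second part
      have v2 : ∀ j < l, (rot g)^[j] (rot g y) ≠ x ∧ (rot g)^[j] (rot g y) ≠ y := by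
        intro j hj
        rw [← iterate_succ_apply, ← hk, ← iterate_add_apply]
        refine ⟨hnx.2.2 _ (by omega) (by omega), fun h => ?_⟩
        have := hnx.inj_on hri (by omega) (by omega) h
        omega
      have hl : (rot g)^[l] (rot g y) = x := by
        rw [← iterate_succ_apply, ← hk, ← iterate_add_apply]
        have := hnx.2.1
        rwa [show m + 1 + (l + 1) = l.succ + (m + 1) by omega] at this
      obtain ⟨dx, hdx⟩ : ∃ dx, (nx g)^[l] (rot g y, dy + -1) = (x, dx) := by
        refine ⟨((nx g)^[l] (rot g y, dy + -1)).2, ?_⟩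
        refine Prod.ext ?_ rfl
        rw [nx_fst]
        exact hl
      have hdx' : (nx g')^[l] (rot g y, dy + -1) = (x, dx) := by
        rw [hg', nx_ung_iter (p := (rot g y, dy + -1)) (n := l) v2 l le_rfl, hdx]
      have P2 : Per (rot g') (l + 1) (rot g y) := by
        have e : ∀ j ≤ l, (rot g')^[j] (rot g y) = (rot g)^[j] (rot g y) := by
          intro j hj
          have h1 := nx_ung_iter (p := (rot g y, dy + -1)) (n := l) v2 j hj
          have h2 := congrArg Prod.fst h1
          rw [nx_fst, nx_fst] at h2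
          exact h2
        refine ⟨by omega, ?_, ?_⟩
        · have h1 := nx_fst (g := g') (l + 1) (rot g y, dy + -1)
          rw [iterate_succ_apply', hdx', nx_x] at h1
          exact h1.symm
        · intro j hj1 hj2
          rw [e j (by omega), ← iterate_succ_apply, ← hk, ← iterate_add_apply]
          intro h
          have e2 : rot g ((rot g)^[m + 1] x) = (rot g)^[m + 2] x := (iterate_succ_apply' _ _ _).symm
          rw [e2] at h
          rcases Nat.lt_or_ge (j.succ + (m + 1)) (m + 1 + (l + 1)) with h3 | h3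
          · have := hnx.inj_on hri h3 (by omega) h
            omega
          · have h5 : j.succ + (m + 1) = m + 1 + (l + 1) := by omega
            rw [h5, hnx.2.1] at h
            exact hnx.2.2 (m + 2) (by omega) (by omega) h.symm
      have L2 := IH (rot g y) (dy + -1) (l + 1) (by exact hG.mem y hy) P2 ⟨l, by
        have h1 := nx_fst (g := g') l (rot g y, dy + -1)
        rw [hdx'] at h1
        rw [← h1]
        exact fx⟩
      have c2 := L2.close
      rw [iterate_succ_apply', hdx', nx_x] at c2
      have c2' : dx + 1 = dy + -1 + 4 := congrArg Prod.snd c2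
      have p2 := L2.pl
      rw [bcyc_add, hdx', b_x, hg', bcyc_ung (p := (rot g y, dy + -1)) v2, ← hg'] at p2
      have e3 : dx = dy + 2 := by omega
      refine ⟨?_, ?_⟩
      · rw [Nat.add_comm, iterate_add_apply, iterate_succ_apply' (nx g) m, hdy, nxg_y,
          iterate_succ_apply', hdx, nxg_x]
        refine Prod.ext rfl ?_
        show dx + -1 = 0 + 4
        omega
      · rw [bcyc_add, bcyc_add (m := m), hdy, bg_y, List.append_nil, iterate_succ_apply', hdy,
          nxg_y, bcyc_add, hdx, bg_x, List.append_nil]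
        rw [e3] at p2
        exact Pl.join2 J.symm p1 p2
    · -- zip
      have hyo : ∀ j, g ((rot g)^[j] y) ≠ (rot g)^[j] y := by
        intro j hjy
        apply hj
        obtain ⟨i, hi⟩ := hb
        obtain ⟨n0, hn0⟩ := Per.exists (hG.rot_periodic x)
        obtain ⟨n1, hn1⟩ := Per.exists (hG.rot_periodic y)
        obtain ⟨k1, hk1⟩ := hn0.back i
        have hr : Reach g ((rot g)^[i] x) ((rot g)^[j] y) := by
          have r1 : Reach g ((rot g)^[i] x) x := by
            have := reach_orb (g := g) k1 ((rot g)^[i] x)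
            rwa [hk1] at this
          exact (r1.tail (Or.inr hxy.symm)).trans (reach_orb j y)
        have hT : ∀ i, ((rot g)^[i] x).1 ∈ T := by
          intro i
          induction i with
          | zero => exact hx
          | succ i ih => rw [iterate_succ_apply']; exact hG.mem _ ih
        obtain ⟨k, hk⟩ := sc_orbit hG hsc (hT i) hi hjy hr
        obtain ⟨k2, hk2⟩ := hn1.back j
        refine ⟨k2 + (k + i), ?_⟩
        rw [iterate_add_apply, iterate_add_apply, hk, hk2]
      have h4 : (rot g)^[4] y = y := hf y hy hyo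
      have hyx' : ∀ j, (rot g)^[j] y ≠ x := by
        intro j h
        obtain ⟨n1, hn1⟩ := Per.exists (hG.rot_periodic y)
        obtain ⟨k, hk⟩ := hn1.back j
        rw [h] at hk
        exact hj ⟨k, hk⟩
      have hcx : ∃ j, (rot g)^[j] z = x := by
        obtain ⟨j, hj' | hj'⟩ := hcon
        · exact ⟨j, hj'⟩
        · exfalso
          obtain ⟨i, hi⟩ := hfz
          obtain ⟨k, hk⟩ := hn.back j
          rw [hj'] at hk
          have := hyo (i + k)
          rw [iterate_add_apply, hk] at this
          exact this hi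
      obtain ⟨jx, hjx⟩ := hcx
      have hnx : Per (rot g) n x := by rw [← hjx]; exact hn.iter hri jx
      have hzx : ∃ k, (rot g)^[k] (rot g x) = z := by
        obtain ⟨k, hk⟩ := hn.back (jx + 1)
        rw [iterate_succ_apply', hjx] at hk
        exact ⟨k, hk⟩
      refine LawAt.of_orbit hG.inv hn.1 (w := rot g x) (d := 0) d ?_ hzx
      obtain ⟨m, rfl⟩ : ∃ m, n = m + 1 := ⟨n - 1, by have := hn.1; omega⟩
      have v1 : ∀ j < m, (rot g)^[j] (rot g x) ≠ x ∧ (rot g)^[j] (rot g x) ≠ y := by
        intro j hj'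
        rw [← iterate_succ_apply]
        exact ⟨hnx.2.2 _ (by omega) (by omega), fun h => hj ⟨_, h⟩⟩
      obtain ⟨dx, hdx⟩ : ∃ dx, (nx g)^[m] (rot g x, 0) = (x, dx) := by
        refine ⟨((nx g)^[m] (rot g x, 0)).2, ?_⟩
        refine Prod.ext ?_ rfl
        rw [nx_fst, ← iterate_succ_apply]
        exact hnx.2.1
      have hdx' : (nx g')^[m] (rot g x, 0) = (x, dx) := by
        rw [hg', nx_ung_iter (p := (rot g x, 0)) (n := m) v1 m le_rfl, hdx]
      -- the four half edges at the interior corner
      have hny : ∀ j, 0 < j → j < 4 → (rot g)^[j] y ≠ y := by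
        have hd : ∀ j, ((rot g)^[j + 1] y).2 = ((rot g)^[j] y).2.cw := by
          intro j
          rw [iterate_succ_apply']
          show (g ((rot g)^[j] y)).2.ccw = _
          rw [hs _ (hyo j), Dir.ccw_opp]
        intro j hj1 hj2 h
        have d1 := hd 0
        have d2 := hd 1
        have d3 := hd 2
        have d0 : ((rot g)^[0] y).2 = y.2 := rfl
        rw [d0] at d1
        rw [d1] at d2
        rw [d2] at d3
        interval_cases j
        · rw [h] at d1; cases h0 : y.2 <;> rw [h0] at d1 <;> exact absurd d1 (by decide)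
        · rw [h] at d2; cases h0 : y.2 <;> rw [h0] at d2 <;> exact absurd d2 (by decide)
        · rw [h] at d3; cases h0 : y.2 <;> rw [h0] at d3 <;> exact absurd d3 (by decide)
      have v2 : ∀ j < 3, (rot g)^[j] (rot g y) ≠ x ∧ (rot g)^[j] (rot g y) ≠ y := by
        intro j hj'
        rw [← iterate_succ_apply]
        exact ⟨hyx' _, hny _ (by omega) (by omega)⟩
      have n3 : ∀ e, (nx g)^[3] (rot g y, e) = (y, e + -1 + -1 + -1) := by
        intro e
        have s0 : ∀ (w : Half τ) (e : ℤ), g w ≠ w → nx g (w, e) = (rot g w, e + -1) :=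
          fun w e h => by unfold nx inc; rw [if_neg h]
        have y1 : g (rot g y) ≠ rot g y := hyo 1
        have y2 : g (rot g (rot g y)) ≠ rot g (rot g y) := hyo 2
        have y3 : g (rot g (rot g (rot g y))) ≠ rot g (rot g (rot g y)) := hyo 3
        show nx g (nx g (nx g (rot g y, e))) = _
        rw [s0 _ _ y1, s0 _ _ y2, s0 _ _ y3]
        exact Prod.ext h4 rfl
      have n3' : ∀ e, (nx g')^[3] (rot g y, e) = (y, e + -1 + -1 + -1) := by
        intro e
        rw [hg', nx_ung_iter (p := (rot g y, e)) (n := 3) v2 3 le_rfl, n3]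
      have e1 : ∀ j ≤ m, (rot g')^[j] (rot g x) = (rot g)^[j] (rot g x) := by
        intro j hj
        have h1 := nx_ung_iter (p := (rot g x, (0 : ℤ))) (n := m) v1 j hj
        have h2 := congrArg Prod.fst h1
        rw [nx_fst, nx_fst] at h2
        exact h2
      have e2 : ∀ j ≤ 3, (rot g')^[j] (rot g y) = (rot g)^[j] (rot g y) := by
        intro j hj
        have h1 := nx_ung_iter (p := (rot g y, (0 : ℤ))) (n := 3) v2 j hj
        have h2 := congrArg Prod.fst h1
        rw [nx_fst, nx_fst] at h2
        exact h2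
      have r1 : (rot g')^[m + 1] (rot g x) = rot g y := by
        have h1 := nx_fst (g := g') (m + 1) (rot g x, (0 : ℤ))
        rw [iterate_succ_apply', hdx', nx_x] at h1
        exact h1.symm
      have hnotin : ∀ j, (rot g)^[j] (rot g y) ≠ rot g x := by
        intro j h
        have h1 : rot g ((rot g)^[j] y) = rot g x := by
          rw [← iterate_succ_apply' (rot g), iterate_succ_apply]
          exact h
        exact hyx' j (hri h1)
      have q1 : (nx g')^[m + 1] (rot g x, 0) = (rot g y, dx + 1) := by
        rw [iterate_succ_apply', hdx', nx_x]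
      have q2 : (nx g')^[m + 1 + 3] (rot g x, 0) = (y, dx - 2) := by
        rw [Nat.add_comm, iterate_add_apply, q1, n3']
        refine Prod.ext rfl ?_
        show dx + 1 + -1 + -1 + -1 = dx - 2
        ring
      have P : Per (rot g') (m + 1 + 3 + 1) (rot g x) := by
        refine ⟨by omega, ?_, ?_⟩
        · have h1 := nx_fst (g := g') (m + 1 + 3 + 1) (rot g x, (0 : ℤ))
          rw [iterate_succ_apply', q2, nx_y] at h1
          exact h1.symm
        · intro j hj1 hj2 h
          rcases Nat.lt_or_ge j (m + 1) with h1 | h1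
          · rw [e1 j (by omega), ← iterate_succ_apply] at h
            rw [iterate_succ_apply'] at h
            exact hnx.2.2 j hj1 h1 (hri h)
          · obtain ⟨i, rfl⟩ : ∃ i, j = i + (m + 1) := ⟨j - (m + 1), by omega⟩
            rw [iterate_add_apply, r1, e2 i (by omega)] at h
            exact hnotin i h
      have L := IH (rot g x) 0 (m + 1 + 3 + 1) (by exact hG.mem x hx) P ⟨m, by
        have h1 := nx_fst (g := g') m (rot g x, (0 : ℤ))
        rw [hdx'] at h1
        rw [← h1]
        exact fx⟩
      have c := L.close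
      rw [iterate_succ_apply', q2, nx_y] at c
      have c' : dx - 2 + 1 = 0 + 4 := congrArg Prod.snd c
      have p := L.pl
      rw [bcyc_add, bcyc_add (m := m + 1), bcyc_add (m := m), hdx', b_x, q1, q2, b_y, hg',
        bcyc_ung (p := (rot g x, (0 : ℤ))) v1, bcyc_ung (p := (rot g y, dx + 1)) v2, ← hg',
        bcyc_nil (g := g) (p := (rot g y, dx + 1)) (n := 3) (fun j _ => by
          show g ((rot g)^[j] (rot g y)) ≠ (rot g)^[j] (rot g y)
          rw [← iterate_succ_apply]; exact hyo _), List.append_nil] at p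
      refine ⟨?_, ?_⟩
      · rw [iterate_succ_apply', hdx, nxg_x]
        refine Prod.ext rfl ?_
        show dx + -1 = 0 + 4
        omega
      · rw [bcyc_add, hdx, bg_x, List.append_nil]
        apply Pl.zip J (d := dx)
        simpa using p

end step

/-- **the turning law** -/
theorem law (hG : Glu T g) (hs : Straight g) (hf : Flat T g) (ho : Open T g) (hsc : SC T g)
    (ω : Finset τ) : Law T g ω := by
  obtain ⟨N, hN⟩ : ∃ N, ((T ×ˢ (Finset.univ : Finset Dir)).filter (fun z => g z ≠ z)).card = N :=
    ⟨_, rfl⟩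
  induction N using Nat.strong_induction_on generalizing g with
  | _ N IH =>
    by_cases h : ∀ z : Half τ, z.1 ∈ T → g z = z
    · exact law_base h
    · push Not at h
      obtain ⟨z, hz, hgz⟩ := h
      obtain ⟨x, hx, hgx, hb⟩ := exists_side hG ho hz hgz
      refine law_step hG hf hs hsc hx rfl (Ne.symm hgx) hb ?_
      refine IH _ ?_ (glu_ung hG rfl) (straight_ung hs) (flat_ung hf) (open_ung ho)
        (sc_ung hG hx rfl (Ne.symm hgx) hb hsc) rfl
      rw [← hN]
      apply Finset.card_lt_card
      rw [Finset.ssubset_iff_of_subset]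
      · refine ⟨x, ?_, ?_⟩
        · simp only [Finset.mem_filter, Finset.mem_product, Finset.mem_univ, and_true]
          exact ⟨hx, hgx⟩
        · simp only [Finset.mem_filter, not_and, not_not]
          intro _
          exact ung_x
      · intro w hw
        simp only [Finset.mem_filter, Finset.mem_product, Finset.mem_univ, and_true] at hw ⊢
        refine ⟨hw.1, ?_⟩
        rw [ung_ext hw.2]
        exact hw.2

end Full.Turn
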