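import Pool.Agent.Full.Def.Two
import Pool.Agent.Full.Loop.Kern

/-!
# Holonomy of strands

`a x` is the holonomy of the step from `x` to `m x`, `b x` the holonomy of the step from `x` to `g x`.
`hol m g a b e` is the holonomy of the strand which starts at the fixed point `e` of `g`, `lhol` the
holonomy of a closed strand.  `other_sw`, `hol_sw`, `closed_tie`: one more pair of fixed points of `g`
is glued.
-/

set_option autoImplicit false

namespace Full
open Function Relation Finset

section hol

variable {α G : Type*} [AddCommGroup G] {m g : α → α} {a b : α → G} {e x y z : α}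

/-- holonomies of the two kinds of steps -/
structure HolD (m g : α → α) (a b : α → G) : Prop where
  ha : ∀ x, a (m x) = - a x
  hb : ∀ x, b (g x) = - b x
  h0 : ∀ x, g x = x → b x = 0

/-- holonomy of the first `n` steps of the walker -/
def hsum (m g : α → α) (a b : α → G) (n : ℕ) (x : α) : G :=
  ∑ k ∈ range n, (a ((g ∘ m)^[k] x) + b (m ((g ∘ m)^[k] x)))

/-- holonomy of the strand which starts at `e` -/
noncomputable def hol (m g : α → α) (a b : α → G) (e : α) : G :=
  hsum m g a b (minimalPeriod (g ∘ m) e / 2) e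

/-- holonomy of a closed strand -/
noncomputable def lhol (m g : α → α) (a b : α → G) (x : α) : G :=
  hsum m g a b (minimalPeriod (g ∘ m) x) x

lemma hsum_zero (x : α) : hsum m g a b 0 x = 0 := by simp [hsum]

lemma hsum_succ (n : ℕ) (x : α) : hsum m g a b (n + 1) x =
    hsum m g a b n x + (a ((g ∘ m)^[n] x) + b (m ((g ∘ m)^[n] x))) := by
  unfold hsum
  rw [Finset.sum_range_succ]

lemma hsum_succ' (n : ℕ) (x : α) : hsum m g a b (n + 1) x =
    (a x + b (m x)) + hsum m g a b n (g (m x)) := by
  unfold hsum
  rw [Finset.sum_range_succ', add_comm]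
  rfl

theorem hsum_refl (h : Two m g) (H : HolD m g a b) (he : g e = e)
    (hp : e ∈ periodicPts (g ∘ m)) (k : ℕ) (hk : k ≤ minimalPeriod (g ∘ m) e) :
    hsum m g a b (minimalPeriod (g ∘ m) e - k) e = hsum m g a b k e + b ((g ∘ m)^[k] e) := by
  have hev := h.even he hp
  set P := minimalPeriod (g ∘ m) e with hP
  -- one step
  have step : ∀ k, k + 1 ≤ P → ((hsum m g a b (P - k) e = hsum m g a b k e + b ((g ∘ m)^[k] e)) ↔
      hsum m g a b (P - (k + 1)) e = hsum m g a b (k + 1) e + b ((g ∘ m)^[k + 1] e)) := by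
    intro k hk
    have e1 : P - k = (P - (k + 1)) + 1 := by omega
    have e2 := h.m_iter he hk
    rw [← hP] at e2
    rw [e1, hsum_succ, hsum_succ k, ← e2, h.m_inv, H.ha, iterate_succ_apply']
    have e3 : b ((g ∘ m) ((g ∘ m)^[k] e)) = - b (m ((g ∘ m)^[k] e)) := H.hb _
    rw [e3]
    constructor
    · intro h1
      rw [add_assoc (hsum m g a b k e), add_assoc, add_neg_cancel, add_zero]
      have := congrArg (fun u => u + (a ((g ∘ m)^[k] e) - b ((g ∘ m)^[k] e))) h1
      have t1 : hsum m g a b (P - (k + 1)) e + (-a ((g ∘ m)^[k] e) + b ((g ∘ m)^[k] e)) +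
        (a ((g ∘ m)^[k] e) - b ((g ∘ m)^[k] e)) = hsum m g a b (P - (k + 1)) e := by abel
      have t2 : hsum m g a b k e + b ((g ∘ m)^[k] e) + (a ((g ∘ m)^[k] e) - b ((g ∘ m)^[k] e)) =
        hsum m g a b k e + a ((g ∘ m)^[k] e) := by abel
      exact t1.symm.trans (this.trans t2)
    · intro h1
      rw [h1]
      abel
  have mid : hsum m g a b (P - P / 2) e = hsum m g a b (P / 2) e + b ((g ∘ m)^[P / 2] e) := by
    have h1 : b ((g ∘ m)^[P / 2] e) = 0 := H.h0 _ (h.other_fix he hp)
    rw [h1, add_zero]
    congr 1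
    omega
  have up : ∀ j, P / 2 + j ≤ P → hsum m g a b (P - (P / 2 + j)) e =
      hsum m g a b (P / 2 + j) e + b ((g ∘ m)^[P / 2 + j] e) := by
    intro j
    induction j with
    | zero => intro _; exact mid
    | succ j ih =>
      intro hj
      exact (step (P / 2 + j) (by omega)).1 (ih (by omega))
  have down : ∀ j, j ≤ P / 2 → hsum m g a b (P - (P / 2 - j)) e =
      hsum m g a b (P / 2 - j) e + b ((g ∘ m)^[P / 2 - j] e) := by
    intro j
    induction j with
    | zero => intro _; exact mid
    | succ j ih =>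
      intro hj
      have h1 := ih (by omega)
      have e1 : P / 2 - j = (P / 2 - (j + 1)) + 1 := by omega
      rw [e1] at h1
      exact (step (P / 2 - (j + 1)) (by omega)).2 h1
  by_cases hk2 : k ≤ P / 2
  · have := down (P / 2 - k) (by omega)
    have e1 : P / 2 - (P / 2 - k) = k := by omega
    rwa [e1] at this
  · have := up (k - P / 2) (by omega)
    have e1 : P / 2 + (k - P / 2) = k := by omega
    rwa [e1] at this

/-- walks with their holonomy -/
inductive HW (m g : α → α) (a b : α → G) (e : α) : α → G → Prop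
  | refl : HW m g a b e e 0
  | m {y s} : HW m g a b e y s → HW m g a b e (m y) (s + a y)
  | g {y s} : HW m g a b e y s → HW m g a b e (g y) (s + b y)

lemma HW.conn {s : G} (hw : HW m g a b e y s) : Conn m g e y := by
  induction hw with
  | refl => exact Conn.refl _
  | m _ ih => exact ih.trans (Conn.m_step _)
  | g _ ih => exact ih.trans (Conn.g_step _)

lemma HW.iter (k : ℕ) (e : α) : HW m g a b e ((g ∘ m)^[k] e) (hsum m g a b k e) := by
  induction k with
  | zero => rw [hsum_zero]; exact HW.refl
  | succ k ih =>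
    rw [iterate_succ_apply', hsum_succ, ← add_assoc]
    exact HW.g (HW.m ih)

lemma HW.trans {s t : G} (h1 : HW m g a b e y s) (h2 : HW m g a b y z t) :
    HW m g a b e z (s + t) := by
  induction h2 with
  | refl => rw [add_zero]; exact h1
  | m _ ih => rw [← add_assoc]; exact HW.m ih
  | g _ ih => rw [← add_assoc]; exact HW.g ih

lemma HW.symm (h : Two m g) (H : HolD m g a b) {s : G} (hw : HW m g a b e y s) :
    HW m g a b y e (-s) := by
  induction hw with
  | refl => rw [neg_zero]; exact HW.refl
  | @m y s _ ih =>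
    have h1 : HW m g a b (m y) y (- a y) := by
      have := HW.m (HW.refl (m := m) (g := g) (a := a) (b := b) (e := m y))
      rwa [h.m_inv, H.ha, zero_add] at this
    have := h1.trans ih
    rwa [← neg_add_rev] at this
  | @g y s _ ih =>
    have h1 : HW m g a b (g y) y (- b y) := by
      have := HW.g (HW.refl (m := m) (g := g) (a := a) (b := b) (e := g y))
      rwa [h.g_inv, H.hb, zero_add] at this
    have := h1.trans ih
    rwa [← neg_add_rev] at this

theorem HW.exists (h : Two m g) (H : HolD m g a b) (he : g e = e)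
    (hp : e ∈ periodicPts (g ∘ m)) {s : G} (hw : HW m g a b e y s) :
    ∃ k, k < minimalPeriod (g ∘ m) e ∧ y = (g ∘ m)^[k] e ∧ s = hsum m g a b k e := by
  have hpos := Two.period_pos hp
  induction hw with
  | refl => exact ⟨0, hpos, rfl, (hsum_zero _).symm⟩
  | @m y s _ ih =>
    obtain ⟨k, hk, rfl, rfl⟩ := ih
    refine ⟨minimalPeriod (g ∘ m) e - (k + 1), by omega, h.m_iter he (by omega), ?_⟩
    rw [hsum_refl h H he hp (k + 1) (by omega), hsum_succ, iterate_succ_apply']
    have e3 : b ((g ∘ m) ((g ∘ m)^[k] e)) = - b (m ((g ∘ m)^[k] e)) := H.hb _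
    rw [e3]
    abel
  | @g y s _ ih =>
    obtain ⟨k, hk, rfl, rfl⟩ := ih
    rcases Nat.eq_zero_or_pos k with rfl | hk0
    · refine ⟨0, hpos, he, ?_⟩
      rw [hsum_zero, zero_add]
      exact H.h0 e he
    · refine ⟨minimalPeriod (g ∘ m) e - k, by omega, h.g_iter he hk.le, ?_⟩
      rw [hsum_refl h H he hp k hk.le]

theorem HW.other (m g : α → α) (a b : α → G) (e : α) :
    HW m g a b e (other m g e) (hol m g a b e) := HW.iter _ e

/-- the holonomy of a walk between two different ends -/
theorem HW.hol_eq (h : Two m g) (H : HolD m g a b) (he : g e = e) (hp : e ∈ periodicPts (g ∘ m))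
    (hy : g y = y) (hne : y ≠ e) {s : G} (hw : HW m g a b e y s) :
    y = Full.other m g e ∧ s = hol m g a b e := by
  obtain ⟨k, hk, rfl, rfl⟩ := hw.exists h H he hp
  have h0 := h.even he hp
  rw [h.g_iter he hk.le] at hy
  rcases Nat.eq_zero_or_pos k with rfl | hk0
  · exact absurd rfl hne
  · have h1 : minimalPeriod (g ∘ m) e - k = k :=
      (iterate_eq_iterate_iff_of_lt_minimalPeriod (f := g ∘ m) (x := e) (by omega) hk).1 hy
    have h2 : k = minimalPeriod (g ∘ m) e / 2 := by omega
    unfold Full.other hol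
    rw [← h2]
    exact ⟨rfl, rfl⟩

theorem hol_other (h : Two m g) (H : HolD m g a b) (he : g e = e)
    (hp : e ∈ periodicPts (g ∘ m)) : hol m g a b (other m g e) = - hol m g a b e := by
  have h1 := (HW.other m g a b e).symm h H
  have h2 := h1.hol_eq h H (h.other_fix he hp) (Two.other_periodic hp) he
    (fun hh => h.other_ne he hp hh.symm)
  exact h2.2.symm

/-! ### closed strands -/

/-- the strand of `z` is closed -/
def Closed (m g : α → α) (z : α) : Prop := ∀ y, Conn m g z y → g y ≠ y

lemma hsum_add (n k : ℕ) (x : α) : hsum m g a b (n + k) x =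
    hsum m g a b n x + hsum m g a b k ((g ∘ m)^[n] x) := by
  induction k with
  | zero => rw [hsum_zero, add_zero, add_zero]
  | succ k ih =>
    rw [← add_assoc, hsum_succ, ih, hsum_succ, add_assoc, ← iterate_add_apply, add_comm k n]

lemma hsum_period {P : ℕ} (hP : (g ∘ m)^[P] x = x) (k : ℕ) :
    hsum m g a b P ((g ∘ m)^[k] x) = hsum m g a b P x := by
  have h1 := hsum_add (m := m) (g := g) (a := a) (b := b) P k x
  have h2 := hsum_add (m := m) (g := g) (a := a) (b := b) k P x
  rw [hP] at h1
  rw [add_comm k P, h1, add_comm] at h2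
  exact (add_left_cancel h2).symm

lemma lhol_iter (hp : x ∈ periodicPts (g ∘ m)) (k : ℕ) :
    lhol m g a b ((g ∘ m)^[k] x) = lhol m g a b x := by
  unfold lhol
  rw [minimalPeriod_apply_iterate hp]
  exact hsum_period (iterate_minimalPeriod) k

end hol

/-! ### gluing one more pair -/

section tie

variable {α G : Type*} [AddCommGroup G] [DecidableEq α] {m g : α → α} {a b : α → G}
  {e x y z : α} {φ : G}

/-- `x` and `y` are glued -/
def tie (x y : α) (g : α → α) (z : α) : α := if z = x then y else if z = y then x else g z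

/-- holonomy `φ` from `x` to `y` -/
def tieb (x y : α) (φ : G) (b : α → G) (z : α) : G := if z = x then φ else if z = y then -φ else b z

lemma tie_x : tie x y g x = y := if_pos rfl

lemma tie_y (hxy : x ≠ y) : tie x y g y = x := by
  unfold tie
  rw [if_neg hxy.symm, if_pos rfl]

lemma tie_o (h1 : z ≠ x) (h2 : z ≠ y) : tie x y g z = g z := by
  unfold tie
  rw [if_neg h1, if_neg h2]

lemma tieb_x : tieb x y φ b x = φ := if_pos rfl

lemma tieb_y (hxy : x ≠ y) : tieb x y φ b y = -φ := by
  unfold tieb
  rw [if_neg hxy.symm, if_pos rfl]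

lemma tieb_o (h1 : z ≠ x) (h2 : z ≠ y) : tieb x y φ b z = b z := by
  unfold tieb
  rw [if_neg h1, if_neg h2]

lemma tie_fix (hx : g x = x) (hy : g y = y) (hxy : x ≠ y) :
    tie x y g z = z ↔ g z = z ∧ z ≠ x ∧ z ≠ y := by
  by_cases h1 : z = x
  · subst h1
    rw [tie_x]
    constructor
    · intro h
      exact absurd h.symm hxy
    · intro h
      exact absurd rfl h.2.1
  · by_cases h2 : z = y
    · subst h2
      rw [tie_y hxy]
      constructor
      · intro h
        exact absurd h hxy
      · intro h
        exact absurd rfl h.2.2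
    · rw [tie_o h1 h2]
      tauto

theorem Two.tie (h : Two m g) (hx : g x = x) (hy : g y = y) (hxy : x ≠ y) :
    Two m (tie x y g) := by
  refine ⟨h.m_inv, h.m_ne, fun z => ?_⟩
  by_cases h1 : z = x
  · subst h1
    rw [tie_x, tie_y hxy]
  · by_cases h2 : z = y
    · subst h2
      rw [tie_y hxy, tie_x]
    · rw [tie_o h1 h2]
      have h3 : g z ≠ x := fun hh => h1 (by rw [← h.g_inv z, hh, hx])
      have h4 : g z ≠ y := fun hh => h2 (by rw [← h.g_inv z, hh, hy])
      rw [tie_o h3 h4, h.g_inv]

theorem HolD.tie (h : Two m g) (H : HolD m g a b) (hx : g x = x) (hy : g y = y) (hxy : x ≠ y) :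
    HolD m (tie x y g) a (tieb x y φ b) := by
  refine ⟨H.ha, fun z => ?_, fun z hz => ?_⟩
  · by_cases h1 : z = x
    · subst h1
      rw [tie_x, tieb_y hxy, tieb_x]
    · by_cases h2 : z = y
      · subst h2
        rw [tie_y hxy, tieb_x, tieb_y hxy, neg_neg]
      · rw [tie_o h1 h2]
        have h3 : g z ≠ x := fun hh => h1 (by rw [← h.g_inv z, hh, hx])
        have h4 : g z ≠ y := fun hh => h2 (by rw [← h.g_inv z, hh, hy])
        rw [tieb_o h3 h4, tieb_o h1 h2, H.hb]
  · rw [tie_fix hx hy hxy] at hz
    rw [tieb_o hz.2.1 hz.2.2, H.h0 z hz.1]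

/-- walks remain walks -/
theorem HW.tie (H : HolD m g a b) (hx : g x = x) (hy : g y = y) {s : G}
    (hw : HW m g a b e z s) : HW m (tie x y g) a (tieb x y φ b) e z s := by
  induction hw with
  | refl => exact HW.refl
  | m _ ih => exact HW.m ih
  | @g z s _ ih =>
    by_cases h1 : z = x
    · subst h1
      rw [hx, H.h0 z hx, add_zero]
      exact ih
    · by_cases h2 : z = y
      · subst h2
        rw [hy, H.h0 z hy, add_zero]
        exact ih
      · have := HW.g ih
        rwa [tie_o h1 h2, tieb_o h1 h2] at this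

theorem Conn.tie (hx : g x = x) (hy : g y = y) (hc : Conn m g e z) : Conn m (tie x y g) e z := by
  induction hc with
  | refl => exact Conn.refl _
  | @tail b c _ h2 ih =>
    rcases h2 with rfl | rfl
    · exact ih.trans (Conn.m_step _)
    · by_cases h1 : b = x
      · subst h1
        rw [hx]
        exact ih
      · by_cases h2 : b = y
        · subst h2
          rw [hy]
          exact ih
        · have := ih.trans (Conn.g_step b)
          rwa [tie_o h1 h2] at this

theorem join_tie (h : Two m g) (H : HolD m g a b) (hper : ∀ z, z ∈ periodicPts (g ∘ m))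
    (hper' : ∀ z, z ∈ periodicPts (tie x y g ∘ m)) (hx : g x = x) (hy : g y = y) (hxy : x ≠ y)
    {p : α} (hp : g p = p) (px : p ≠ x) (py : p ≠ y) :
    other m (tie x y g) p = Loop.jf x y (other m g) p ∧
    hol m (tie x y g) a (tieb x y φ b) p = Loop.jh x y φ (other m g) (hol m g a b) p := by
  have h' := h.tie hx hy hxy
  have H' := H.tie (φ := φ) h hx hy hxy
  have fp : tie x y g p = p := (tie_fix hx hy hxy).2 ⟨hp, px, py⟩
  have ff := h.other_other hp (hper p)
  have fx := h.other_other hx (hper x)
  have fy := h.other_other hy (hper y)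
  have gx := h.other_fix hx (hper x)
  have gy := h.other_fix hy (hper y)
  have gp := h.other_fix hp (hper p)
  have nx := h.other_ne hx (hper x)
  have ny := h.other_ne hy (hper y)
  have np := h.other_ne hp (hper p)
  by_cases h1 : other m g p = x
  · rw [Loop.jf_x h1, Loop.jh_x h1]
    have w1 : HW m (tie x y g) a (tieb x y φ b) p x (hol m g a b p) := by
      have := (HW.other m g a b p).tie (x := x) (y := y) (φ := φ) H hx hy
      rwa [h1] at this
    have w2 := w1.g
    rw [tie_x, tieb_x] at w2
    have w3 := w2.trans ((HW.other m g a b y).tie (x := x) (y := y) (φ := φ) H hx hy)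
    have n1 : other m g y ≠ x := by
      intro hh
      apply py
      rw [← ff, h1, ← hh, fy]
    have n2 : other m g y ≠ p := by
      intro hh
      apply hxy
      rw [← h1, ← hh, fy]
    have f1 : tie x y g (other m g y) = other m g y := (tie_fix hx hy hxy).2 ⟨gy, n1, ny⟩
    have := w3.hol_eq h' H' fp (hper' p) f1 n2
    exact ⟨this.1.symm, this.2.symm⟩
  · by_cases h2 : other m g p = y
    · rw [Loop.jf_y h1 h2, Loop.jh_y h1 h2]
      have w1 : HW m (tie x y g) a (tieb x y φ b) p y (hol m g a b p) := by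
        have := (HW.other m g a b p).tie (x := x) (y := y) (φ := φ) H hx hy
        rwa [h2] at this
      have w2 := w1.g
      rw [tie_y hxy, tieb_y hxy] at w2
      have w3 := w2.trans ((HW.other m g a b x).tie (x := x) (y := y) (φ := φ) H hx hy)
      have n1 : other m g x ≠ y := by
        intro hh
        apply px
        rw [← ff, h2, ← hh, fx]
      have n2 : other m g x ≠ p := by
        intro hh
        apply hxy.symm
        rw [← h2, ← hh, fx]
      have f1 : tie x y g (other m g x) = other m g x := (tie_fix hx hy hxy).2 ⟨gx, nx, n1⟩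
      have := w3.hol_eq h' H' fp (hper' p) f1 n2
      rw [← sub_eq_add_neg] at this
      exact ⟨this.1.symm, this.2.symm⟩
    · rw [Loop.jf_o h1 h2, Loop.jh_o h1 h2]
      have w1 := (HW.other m g a b p).tie (x := x) (y := y) (φ := φ) H hx hy
      have f1 : tie x y g (other m g p) = other m g p := (tie_fix hx hy hxy).2 ⟨gp, h1, h2⟩
      have := w1.hol_eq h' H' fp (hper' p) f1 np
      exact ⟨this.1.symm, this.2.symm⟩

lemma iter_tie {p : α} {n : ℕ} (hn : ∀ k, 1 ≤ k → k ≤ n → (g ∘ m)^[k] p ≠ x ∧ (g ∘ m)^[k] p ≠ y)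
    (hx : g x = x) (hy : g y = y) (k : ℕ) (hk : k ≤ n) :
    (tie x y g ∘ m)^[k] p = (g ∘ m)^[k] p ∧
      hsum m (tie x y g) a (tieb x y φ b) k p = hsum m g a b k p := by
  induction k with
  | zero => exact ⟨rfl, by rw [hsum_zero, hsum_zero]⟩
  | succ k ih =>
    obtain ⟨i1, i2⟩ := ih (by omega)
    have h1 := hn (k + 1) (by omega) hk
    rw [iterate_succ_apply'] at h1
    have h2 : m ((g ∘ m)^[k] p) ≠ x := fun hh => h1.1 (by
      show g (m ((g ∘ m)^[k] p)) = x
      rw [hh, hx])
    have h3 : m ((g ∘ m)^[k] p) ≠ y := fun hh => h1.2 (by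
      show g (m ((g ∘ m)^[k] p)) = y
      rw [hh, hy])
    constructor
    · rw [iterate_succ_apply', iterate_succ_apply', i1]
      exact tie_o h2 h3
    · rw [hsum_succ, hsum_succ, i1, i2, tieb_o h2 h3]

/-- the new closed strand -/
theorem lhol_new (h : Two m g) (H : HolD m g a b) (hper : ∀ z, z ∈ periodicPts (g ∘ m))
    (hx : g x = x) (hy : g y = y) (hxy : x ≠ y)
    (hf : other m g x = y) {k : ℕ} (hk : k < minimalPeriod (g ∘ m) x / 2) :
    lhol m (tie x y g) a (tieb x y φ b) ((g ∘ m)^[k] x) = hol m g a b x - φ := by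
  set P := minimalPeriod (g ∘ m) x with hP
  have hev := h.even hx (hper x)
  have hpos := Two.period_pos (hper x)
  have lt : ∀ j, 1 ≤ j → j ≤ P / 2 - 1 → (g ∘ m)^[j] x ≠ x ∧ (g ∘ m)^[j] x ≠ y := by
    intro j h1 h2
    constructor
    · intro hh
      have : (g ∘ m)^[j] x = (g ∘ m)^[0] x := hh
      have := (iterate_eq_iterate_iff_of_lt_minimalPeriod (f := g ∘ m) (x := x) (by omega)
        (by omega)).1 this
      omega
    · intro hh
      rw [← hf] at hh
      have := (iterate_eq_iterate_iff_of_lt_minimalPeriod (f := g ∘ m) (x := x) (by omega)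
        (by omega)).1 hh
      omega
  have it := iter_tie (m := m) (a := a) (b := b) (φ := φ) lt hx hy
  have hlast : m ((g ∘ m)^[P / 2 - 1] x) = y := by
    have h1 : (g ∘ m)^[P / 2] x = y := hf
    have h2 : P / 2 = P / 2 - 1 + 1 := by omega
    rw [h2, iterate_succ_apply'] at h1
    have h3 : g (m ((g ∘ m)^[P / 2 - 1] x)) = y := h1
    rw [← h.g_inv (m ((g ∘ m)^[P / 2 - 1] x)), h3, hy]
  have ret : (tie x y g ∘ m)^[P / 2] x = x := by
    have h2 : P / 2 = P / 2 - 1 + 1 := by omega
    rw [h2, iterate_succ_apply', (it _ le_rfl).1]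
    show tie x y g (m ((g ∘ m)^[P / 2 - 1] x)) = x
    rw [hlast, tie_y hxy]
  have per : minimalPeriod (tie x y g ∘ m) x = P / 2 := by
    have h1 : IsPeriodicPt (tie x y g ∘ m) (P / 2) x := ret
    have h2 := h1.minimalPeriod_le (by omega)
    have h3 : 0 < minimalPeriod (tie x y g ∘ m) x :=
      minimalPeriod_pos_of_mem_periodicPts ⟨P / 2, by omega, h1⟩
    by_contra hne
    have h4 : minimalPeriod (tie x y g ∘ m) x ≤ P / 2 - 1 := by omega
    have h5 := (it _ h4).1
    rw [iterate_minimalPeriod] at h5
    exact (lt _ h3 h4).1 h5.symm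
  have hp' : x ∈ periodicPts (tie x y g ∘ m) := ⟨P / 2, by omega, ret⟩
  rw [← (it k (by omega)).1, lhol_iter hp']
  unfold lhol
  rw [per]
  have h2 : P / 2 = P / 2 - 1 + 1 := by omega
  have e1 : hol m g a b x = hsum m g a b (P / 2 - 1) x +
      (a ((g ∘ m)^[P / 2 - 1] x) + b (m ((g ∘ m)^[P / 2 - 1] x))) := by
    unfold hol
    rw [← hP, ← hsum_succ, ← h2]
  have e2 : hsum m (tie x y g) a (tieb x y φ b) (P / 2) x = hsum m g a b (P / 2 - 1) x +
      (a ((g ∘ m)^[P / 2 - 1] x) + tieb x y φ b y) := by
    have := hsum_succ (m := m) (g := tie x y g) (a := a) (b := tieb x y φ b) (P / 2 - 1) x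
    rw [← h2, (it _ le_rfl).1, (it _ le_rfl).2, hlast] at this
    exact this
  rw [e1, e2, tieb_y hxy, hlast, H.h0 y hy]
  abel

lemma tie_comm (hxy : x ≠ y) : tie x y g = tie y x g := by
  funext z
  unfold tie
  by_cases h1 : z = x
  · subst h1
    rw [if_pos rfl, if_neg hxy, if_pos rfl]
  · by_cases h2 : z = y
    · subst h2
      rw [if_neg h1, if_pos rfl, if_pos rfl]
    · rw [if_neg h1, if_neg h2, if_neg h2, if_neg h1]

lemma tieb_comm (hxy : x ≠ y) : tieb x y φ b = tieb y x (-φ) b := by
  funext z
  unfold tieb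
  by_cases h1 : z = x
  · subst h1
    rw [if_pos rfl, if_neg hxy, if_pos rfl, neg_neg]
  · by_cases h2 : z = y
    · subst h2
      rw [if_neg h1, if_pos rfl, if_pos rfl]
    · rw [if_neg h1, if_neg h2, if_neg h2, if_neg h1]

omit [DecidableEq α] in
lemma Closed.conn (_h : Two m g) (hc : Closed m g z) {w : α} (hw : Conn m g z w) : Closed m g w :=
  fun _ hv => hc _ (hw.trans hv)

/-- **closed strands after one more gluing** -/
theorem closed_tie (h : Two m g) (H : HolD m g a b) (hper : ∀ z, z ∈ periodicPts (g ∘ m))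
    (hx : g x = x) (hy : g y = y) (hxy : x ≠ y) (hz : Closed m (tie x y g) z) :
    (Closed m g z ∧ lhol m (tie x y g) a (tieb x y φ b) z = lhol m g a b z) ∨
    (other m g x = y ∧ (lhol m (tie x y g) a (tieb x y φ b) z = hol m g a b x - φ ∨
      lhol m (tie x y g) a (tieb x y φ b) z = - (hol m g a b x - φ))) := by
  have fx := h.other_other hx (hper x)
  have fy := h.other_other hy (hper y)
  have gx := h.other_fix hx (hper x)
  have gy := h.other_fix hy (hper y)
  have nx := h.other_ne hx (hper x)
  have ny := h.other_ne hy (hper y)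
  -- the strand of `x` is closed
  have key : Conn m g x z → other m g x = y := by
    intro hc
    by_contra hne
    have h1 : Conn m g z (other m g x) := (h.symm hc).trans (Two.conn_other x)
    exact hz _ (h1.tie hx hy) ((tie_fix hx hy hxy).2 ⟨gx, nx, hne⟩)
  have key' : Conn m g y z → other m g x = y := by
    intro hc
    by_contra hne
    have hne' : other m g y ≠ x := fun hh => hne (by rw [← hh, fy])
    have h1 : Conn m g z (other m g y) := (h.symm hc).trans (Two.conn_other y)
    exact hz _ (h1.tie hx hy) ((tie_fix hx hy hxy).2 ⟨gy, hne', ny⟩)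
  by_cases hc : Conn m g x z ∨ Conn m g y z
  · right
    have hf : other m g x = y := by
      rcases hc with hc | hc
      · exact key hc
      · exact key' hc
    refine ⟨hf, ?_⟩
    have hc' : Conn m g x z := by
      rcases hc with hc | hc
      · exact hc
      · rw [← hf] at hc
        exact (Two.conn_other x).trans hc
    obtain ⟨k, hk, rfl⟩ := h.exists_iter hx (hper x) hc'
    have hev := h.even hx (hper x)
    by_cases hk2 : k < minimalPeriod (g ∘ m) x / 2
    · left
      exact lhol_new h H hper hx hy hxy hf hk2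
    · right
      have hf' : other m g y = x := by rw [← hf, fx]
      have hPy : minimalPeriod (g ∘ m) y = minimalPeriod (g ∘ m) x := by
        rw [← hf]
        exact minimalPeriod_apply_iterate (hper x) _
      have e1 : (g ∘ m)^[k] x = (g ∘ m)^[k - minimalPeriod (g ∘ m) x / 2] y := by
        have h1 : y = (g ∘ m)^[minimalPeriod (g ∘ m) x / 2] x := hf.symm
        rw [h1, ← iterate_add_apply]
        congr 1
        omega
      rw [e1, tie_comm hxy, tieb_comm hxy, lhol_new h H hper hy hx hxy.symm hf' (by omega)]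
      have h2 : hol m g a b y = - hol m g a b x := by
        rw [← hf]
        exact hol_other h H hx (hper x)
      rw [h2]
      abel
  · left
    rw [not_or] at hc
    have avoid : ∀ w, Conn m g z w → w ≠ x ∧ w ≠ y := by
      intro w hw
      constructor
      · rintro rfl
        exact hc.1 (h.symm hw)
      · rintro rfl
        exact hc.2 (h.symm hw)
    have hcg : ∀ w, Conn m g z w → tie x y g w = g w := fun w hw =>
      tie_o (avoid w hw).1 (avoid w hw).2
    refine ⟨fun w hw => ?_, ?_⟩
    · rw [← hcg w hw]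
      exact hz w (hw.tie hx hy)
    · have it := fun k => iter_tie (m := m) (g := g) (a := a) (b := b) (φ := φ) (x := x) (y := y)
        (p := z) (n := k) (fun j _ _ => avoid _ (Conn.iter j z)) hx hy k le_rfl
      have hP : minimalPeriod (tie x y g ∘ m) z = minimalPeriod (g ∘ m) z := by
        refine minimalPeriod_eq_minimalPeriod_iff.2 fun n => ?_
        show (tie x y g ∘ m)^[n] z = z ↔ (g ∘ m)^[n] z = z
        rw [(it n).1]
      unfold lhol
      rw [hP, (it _).2]

end tie

end Full
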