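import Pool.Agent.Full.Turn.Iter

/-!
# Simply connected regions stay simply connected when a side with a boundary corner is unglued
-/

set_option autoImplicit false

namespace Full.Turn
open Function Relation Full

variable {τ : Type*} [DecidableEq τ]

/-- moves inside a region: next side of the same tile, glued side -/
def Reach (g : Half τ → Half τ) : Half τ → Half τ → Prop :=
  ReflTransGen fun a b => b = rho a ∨ b = g a

/-- no closed component -/
def Open (T : Finset τ) (g : Half τ → Half τ) : Prop :=
  ∀ z : Half τ, z.1 ∈ T → ∃ w, Reach g z w ∧ g w = w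

/-- inner corners are surrounded by four tiles -/
def Flat (T : Finset τ) (g : Half τ → Half τ) : Prop :=
  ∀ z : Half τ, z.1 ∈ T → (∀ k, g ((rot g)^[k] z) ≠ (rot g)^[k] z) → (rot g)^[4] z = z

/-- the first fixed point of `g` on the rotation orbit of `z` is `w` -/
def FF (g : Half τ → Half τ) (z w : Half τ) : Prop :=
  ∃ j, (rot g)^[j] z = w ∧ g w = w ∧ ∀ i < j, g ((rot g)^[i] z) ≠ (rot g)^[i] z

section FF
variable {g : Half τ → Half τ} {z w w' : Half τ}

omit [DecidableEq τ] in
lemma FF.unique (h : FF g z w) (h' : FF g z w') : w = w' := by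
  obtain ⟨j, h1, h2, h3⟩ := h
  obtain ⟨k, k1, k2, k3⟩ := h'
  rcases lt_trichotomy j k with hl | hl | hl
  · exact absurd (by rw [h1]; exact h2) (k3 j hl)
  · subst hl; rw [← h1, ← k1]
  · exact absurd (by rw [k1]; exact k2) (h3 k hl)

omit [DecidableEq τ] in
lemma FF.self (h : g z = z) : FF g z z := ⟨0, rfl, h, fun i hi => absurd hi (by omega)⟩

omit [DecidableEq τ] in
lemma FF.eq_self (h : g z = z) (hw : FF g z w) : w = z := hw.unique (FF.self h)

omit [DecidableEq τ] in
/-- the first fixed point after a glued half edge -/
lemma FF.rot_iff (h : g z ≠ z) : FF g (rot g z) w ↔ FF g z w := by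
  constructor
  · rintro ⟨j, h1, h2, h3⟩
    refine ⟨j + 1, ?_, h2, ?_⟩
    · rw [iterate_succ_apply]; exact h1
    · intro i hi
      rcases i with _ | i
      · exact h
      · rw [iterate_succ_apply]; exact h3 i (by omega)
  · rintro ⟨j, h1, h2, h3⟩
    rcases j with _ | j
    · exact absurd (by rw [show z = w from h1]; exact h2) h
    · refine ⟨j, ?_, h2, ?_⟩
      · rw [← iterate_succ_apply]; exact h1
      · intro i hi
        rw [← iterate_succ_apply]; exact h3 (i + 1) (by omega)

omit [DecidableEq τ] in
lemma FF.exists (h : ∃ j, g ((rot g)^[j] z) = (rot g)^[j] z) : ∃ w, FF g z w := by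
  classical
  refine ⟨(rot g)^[Nat.find h] z, Nat.find h, rfl, Nat.find_spec h, fun i hi => Nat.find_min h hi⟩

open Classical in
/-- the indicator function of the boundary corner at the tail of `w` -/
noncomputable def cw (g : Half τ → Half τ) (w z : Half τ) : ZMod 2 := if FF g z w then 1 else 0

omit [DecidableEq τ] in
lemma cw_rot (h : g z ≠ z) : cw g w (rot g z) = cw g w z := by
  unfold cw
  rw [FF.rot_iff h]

omit [DecidableEq τ] in
lemma corner_cw (hg : ∀ x, g (g x) = x) : Corner g (cw g w) := by
  intro z hz
  have h1 : g (g z) ≠ g z := by rw [hg]; exact Ne.symm hz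
  have h2 : rot g (g z) = rho z := by unfold rot; rw [hg]
  rw [← cw_rot h1, h2]

end FF

/-- the coboundary of a corner function is a closed cochain -/
lemma cob_inv {g : Half τ → Half τ} (hg : ∀ x, g (g x) = x) {c : Half τ → ZMod 2}
    (hc : Corner g c) (z : Half τ) : c (rho (g z)) + c (g z) = c (rho z) + c z := by
  by_cases hz : g z = z
  · rw [hz]
  · have h1 := hc z hz
    have h2 := hc (g z) (by rw [hg]; exact Ne.symm hz)
    rw [hg] at h2
    rw [h1, ← h2, add_comm]

omit [DecidableEq τ] in
lemma cob_sum (c : Half τ → ZMod 2) (t : τ) : ∑ d, (c (rho (t, d)) + c (t, d)) = 0 := by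
  rw [Dir.sum_dir]
  simp only [rho, Dir.ccw]
  have h2 : (2 : ZMod 2) = 0 := by decide
  linear_combination (c (t, Dir.E) + c (t, Dir.N) + c (t, Dir.W) + c (t, Dir.S)) * h2

variable {T : Finset τ} {g : Half τ → Half τ} {x y : Half τ}

/-- **SC passes to the unglued region** -/
theorem sc_ung (hG : Glu T g) (hx : x.1 ∈ T) (hxy : g x = y) (hne : x ≠ y)
    (hb : ∃ j, g ((rot g)^[j] x) = (rot g)^[j] x) (hsc : SC T g) : SC T (ung g x y) := by
  classical
  set g' := ung g x y with hg'
  have hG' : Glu T g' := glu_ung hG hxy
  have hyx : g y = x := by rw [← hxy, hG.inv]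
  have hy : y.1 ∈ T := by rw [← hxy]; exact hG.mem x hx
  have fx : g' x = x := ung_x
  have fy : g' y = y := ung_y
  -- closed cochains with equal values at `x` and `y`
  have key : ∀ χ : Half τ → ZMod 2, (∀ z, χ (g' z) = χ z) → (∀ t ∈ T, ∑ d, χ (t, d) = 0) →
      χ x = χ y → ∃ c : Half τ → ZMod 2, Corner g' c ∧ ∀ z : Half τ, z.1 ∈ T →
        c (rho z) = c z + χ z := by
    intro χ h1 h2 h3
    obtain ⟨c, c1, c2⟩ := hsc χ (fun z => by
      by_cases hzx : z = x
      · rw [hzx, hxy, h3]
      · by_cases hzy : z = y
        · rw [hzy, hyx, h3]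
        · have := h1 z
          rwa [hg', ung_o hzx hzy] at this) h2
    refine ⟨c, fun z hz => ?_, c2⟩
    have h4 : g' z = g z := (ung_ext hz).symm
    rw [h4]
    exact c1 z (by rw [← h4]; exact hz)
  -- a corner function which separates
  have sep : ∃ w, cw g' w (rho x) + cw g' w x + (cw g' w (rho y) + cw g' w y) = 1 := by
    by_contra hno
    push Not at hno
    have exx : ∀ z : Half τ, g' z = z → z.1 ∈ T → ∃ w, FF g' (rho z) w := by
      intro z hz _
      obtain ⟨n, hn⟩ := Per.exists (hG'.rot_periodic z)
      refine FF.exists ⟨n - 1, ?_⟩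
      have h1 : rho z = rot g' z := by unfold rot; rw [hz]
      rw [h1, ← iterate_succ_apply, show (n - 1).succ = n by have := hn.1; omega, hn.2.1, hz]
    obtain ⟨u, hu⟩ := exx x fx hx
    obtain ⟨v, hv⟩ := exx y fy hy
    -- values
    have c1 : ∀ w, cw g' w (rho x) = if w = u then 1 else 0 := by
      intro w
      unfold cw
      by_cases h : w = u
      · rw [if_pos h, if_pos (by rw [h]; exact hu)]
      · rw [if_neg h, if_neg (fun h' => h (h'.unique hu))]
    have c2 : ∀ w, cw g' w (rho y) = if w = v then 1 else 0 := by
      intro w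
      unfold cw
      by_cases h : w = v
      · rw [if_pos h, if_pos (by rw [h]; exact hv)]
      · rw [if_neg h, if_neg (fun h' => h (h'.unique hv))]
    have c3 : ∀ w, cw g' w x = if w = x then 1 else 0 := by
      intro w
      unfold cw
      by_cases h : w = x
      · rw [if_pos h, if_pos (by rw [h]; exact FF.self fx)]
      · rw [if_neg h, if_neg (fun h' => h (FF.eq_self fx h'))]
    have c4 : ∀ w, cw g' w y = if w = y then 1 else 0 := by
      intro w
      unfold cw
      by_cases h : w = y
      · rw [if_pos h, if_pos (by rw [h]; exact FF.self fy)]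
      · rw [if_neg h, if_neg (fun h' => h (FF.eq_self fy h'))]
    have hux : (u = x ∨ u = y) ∧ (v = x ∨ v = y) := by
      have n1 := hno x
      have n2 := hno y
      rw [c1, c2, c3, c4] at n1 n2
      rw [if_pos rfl, if_neg hne] at n1
      rw [if_neg (Ne.symm hne), if_pos rfl] at n2
      have e2 : (1 : ZMod 2) + 1 = 0 := by decide
      by_cases a1 : x = u <;> by_cases a2 : x = v <;> by_cases a3 : y = u <;>
        by_cases a4 : y = v
      all_goals
        simp only [a1, a2, a3, a4, if_true, if_false] at n1 n2 ⊢
        first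
          | (exfalso; exact hne (by rw [a1, a3]))
          | (exfalso; exact hne (by rw [a2, a4]))
          | tauto
    -- the set of half edges whose first fixed point is `x` or `y` is invariant
    have inv : ∀ z, (FF g' z x ∨ FF g' z y) → (FF g' (rot g z) x ∨ FF g' (rot g z) y) := by
      intro z hz
      by_cases hzx : z = x
      · have e : rot g z = rho y := by rw [hzx]; unfold rot; rw [hxy]
        rw [e]
        rcases hux.2 with h | h
        · left; rw [h] at hv; exact hv
        · right; rw [h] at hv; exact hv
      · by_cases hzy : z = y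
        · have e : rot g z = rho x := by rw [hzy]; unfold rot; rw [hyx]
          rw [e]
          rcases hux.1 with h | h
          · left; rw [h] at hu; exact hu
          · right; rw [h] at hu; exact hu
        · rw [← rot_ung_o (x := x) (y := y) hzx hzy, ← hg']
          have h1 : g' z ≠ z := by
            intro h
            rcases hz with h2 | h2
            · exact hzx (FF.eq_self h h2).symm
            · exact hzy (FF.eq_self h h2).symm
          rw [FF.rot_iff h1, FF.rot_iff h1]
          exact hz
    have inv2 : ∀ j, FF g' ((rot g)^[j] x) x ∨ FF g' ((rot g)^[j] x) y := by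
      intro j
      induction j with
      | zero => exact Or.inl (FF.self fx)
      | succ j ih => rw [iterate_succ_apply']; exact inv _ ih
    obtain ⟨j, hj⟩ := hb
    set b := (rot g)^[j] x with hbd
    have hbx : b ≠ x := fun h => by rw [h, hxy] at hj; exact hne hj.symm
    have hby : b ≠ y := fun h => by rw [h, hyx] at hj; exact hne hj
    have hb' : g' b = b := by rw [hg', ung_o hbx hby]; exact hj
    rcases inv2 j with h | h
    · exact hbx (FF.eq_self hb' h).symm
    · exact hby (FF.eq_self hb' h).symm
  intro χ h1 h2
  by_cases h3 : χ x = χ y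
  · exact key χ h1 h2 h3
  · obtain ⟨w, hw⟩ := sep
    have hcor := corner_cw (w := w) hG'.inv
    obtain ⟨c, c1, c2⟩ := key (fun z => χ z + (cw g' w (rho z) + cw g' w z))
      (fun z => by rw [h1, cob_inv hG'.inv hcor]) (fun t ht => by
        rw [Finset.sum_add_distrib, h2 t ht, cob_sum, add_zero]) (by
        have h4 : χ x + χ y = 1 := by
          have : ∀ a b : ZMod 2, a ≠ b → a + b = 1 := by decide
          exact this _ _ h3
        have h5 : ∀ a b c d : ZMod 2, a + b = 1 → c + d = 1 → a + c = b + d := by decide
        exact h5 _ _ _ _ h4 hw)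
    refine ⟨fun z => c z + cw g' w z, fun z hz => ?_, fun z hz => ?_⟩
    · show c (g' z) + cw g' w (g' z) = c (rho z) + cw g' w (rho z)
      rw [c1 z hz, hcor z hz]
    · have h4 := c2 z hz
      show c (rho z) + cw g' w (rho z) = c z + cw g' w z + χ z
      rw [h4]
      have h5 : (2 : ZMod 2) = 0 := by decide
      linear_combination (cw g' w (rho z)) * h5

/-- in a simply connected region two different boundary cycles are not connected -/
theorem sc_orbit (hG : Glu T g) (hsc : SC T g) {b c : Half τ} (hb : b.1 ∈ T) (fb : g b = b)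
    (fc : g c = c) (hr : Reach g b c) : ∃ k, (rot g)^[k] b = c := by
  classical
  by_contra hno
  push Not at hno
  have hbc : b ≠ c := hno 0
  -- the cochain of a path of tiles
  have hpath : ∃ χ : Half τ → ZMod 2, (∀ z, χ (g z) = χ z) ∧ (∀ z, g z = z → χ z = 0) ∧
      (∀ t, ∑ d, χ (t, d) = (if t = b.1 then 1 else 0) + (if t = c.1 then 1 else 0)) := by
    clear hno fc hbc
    induction hr with
    | refl =>
      refine ⟨fun _ => 0, fun _ => rfl, fun _ _ => rfl, fun t => ?_⟩
      have h2 : ∀ a : ZMod 2, a + a = 0 := by decide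
      rw [h2]
      simp
    | @tail p q _ hpq ih =>
      obtain ⟨χ, h1, h2, h3⟩ := ih
      rcases hpq with rfl | rfl
      · exact ⟨χ, h1, h2, h3⟩
      · by_cases hp : g p = p
        · rw [hp]; exact ⟨χ, h1, h2, h3⟩
        · refine ⟨fun z => χ z + ((if z = p then 1 else 0) + (if z = g p then 1 else 0)), ?_, ?_, ?_⟩
          · intro z
            have e1 : (g z = p) ↔ (z = g p) := ⟨fun h => by rw [← h, hG.inv],
              fun h => by rw [h, hG.inv]⟩
            have e2 : (g z = g p) ↔ (z = p) := ⟨fun h => hG.inj h, fun h => by rw [h]⟩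
            simp only [h1, e1, e2]
            ring
          · intro z hz
            have e1 : z ≠ p := fun h => hp (by rw [← h]; exact hz)
            have e2 : z ≠ g p := fun h => by
              rw [h, hG.inv] at hz
              exact hp hz.symm
            simp only [h2 z hz, e1, e2, if_false, add_zero]
          · intro t
            simp only [Finset.sum_add_distrib, h3 t]
            have e : ∀ u : Half τ, ∑ d, (if ((t, d) : Half τ) = u then (1 : ZMod 2) else 0) =
                if t = u.1 then 1 else 0 := by
              rintro ⟨t', d'⟩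
              by_cases h : t = t'
              · subst h
                simp [Prod.mk.injEq]
              · simp [Prod.mk.injEq, h]
            rw [e, e]
            have h5 : (2 : ZMod 2) = 0 := by decide
            linear_combination (if t = p.1 then (1 : ZMod 2) else 0) * h5
  obtain ⟨χ, h1, h2, h3⟩ := hpath
  obtain ⟨f, f1, f2⟩ := hsc (fun z => χ z + ((if z = b then 1 else 0) + (if z = c then 1 else 0)))
    (fun z => by
      have e1 : (g z = b) ↔ (z = b) := ⟨fun h => by rw [← hG.inv z, h, fb], fun h => by rw [h, fb]⟩
      have e2 : (g z = c) ↔ (z = c) := ⟨fun h => by rw [← hG.inv z, h, fc], fun h => by rw [h, fc]⟩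
      simp only [h1, e1, e2])
    (fun t _ => by
      simp only [Finset.sum_add_distrib, h3 t]
      have e : ∀ u : Half τ, ∑ d, (if ((t, d) : Half τ) = u then (1 : ZMod 2) else 0) =
          if t = u.1 then 1 else 0 := by
        rintro ⟨t', d'⟩
        by_cases h : t = t'
        · subst h
          simp [Prod.mk.injEq]
        · simp [Prod.mk.injEq, h]
      rw [e, e]
      have h5 : ∀ a b : ZMod 2, a + b + (a + b) = 0 := by decide
      exact h5 _ _)
  -- along the rotation
  have hmem : ∀ j, ((rot g)^[j] b).1 ∈ T := by
    intro j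
    induction j with
    | zero => exact hb
    | succ j ih => rw [iterate_succ_apply']; exact hG.mem _ ih
  have hstep : ∀ z : Half τ, z.1 ∈ T → z ≠ c → f (rot g z) = f z + (if z = b then 1 else 0) := by
    intro z hz hzc
    by_cases hgz : g z = z
    · have e : rot g z = rho z := by unfold rot; rw [hgz]
      rw [e, f2 z hz, h2 z hgz, if_neg hzc]
      ring
    · have hzb : z ≠ b := fun h => hgz (by rw [h]; exact fb)
      have e1 : f (rot g z) = f (rho (g z)) := rfl
      have e2 := f2 (g z) (hG.mem z hz)
      have e3 := f1 z hgz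
      have e4 := f2 z hz
      have e5 : g z ≠ b := fun h => hzb (by rw [← hG.inv z, h, fb])
      have e6 : g z ≠ c := fun h => hzc (by rw [← hG.inv z, h, fc])
      rw [if_neg e5, if_neg e6, h1] at e2
      rw [if_neg hzb, if_neg hzc] at e4
      rw [if_neg hzb, e1, e2, e3, e4]
      have h5 : (2 : ZMod 2) = 0 := by decide
      linear_combination (χ z) * h5
  obtain ⟨n, hn⟩ := Per.exists (hG.rot_periodic b)
  have hall : ∀ j, 1 ≤ j → j ≤ n → f ((rot g)^[j] b) = f b + 1 := by
    intro j hj1
    induction j, hj1 using Nat.le_induction with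
    | base =>
      intro _
      have := hstep b hb (hno 0)
      rw [if_pos rfl] at this
      exact this
    | succ j hj1 ih =>
      intro hjn
      rw [iterate_succ_apply', hstep _ (hmem j) (hno j), ih (by omega),
        if_neg (hn.2.2 j (by omega) (by omega)), add_zero]
  have h6 := hall n hn.1 le_rfl
  rw [hn.2.1] at h6
  have h7 : ∀ a : ZMod 2, a ≠ a + 1 := by decide
  exact h7 _ h6

end Full.Turn
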