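import Pool.Agent.Full.Turn.Pl

/-!
# Labelled rotation cycles and the effect of ungluing one pair of sides
-/

set_option autoImplicit false

namespace Full.Turn
open Function Relation Full

variable {τ : Type*} [DecidableEq τ]

/-- direction change of the rotation: after a boundary side the next side of the tile is one quarter
turn to the left, after a glued side it is one quarter turn to the right -/
def inc (g : Half τ → Half τ) (z : Half τ) : ℤ := if g z = z then 1 else -1

/-- rotation of labelled half edges -/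
def nx (g : Half τ → Half τ) (p : Half τ × ℤ) : Half τ × ℤ := (rot g p.1, p.2 + inc g p.1)

/-- `n` is the exact period of `a` -/
def Per {α : Type*} (f : α → α) (n : ℕ) (a : α) : Prop :=
  0 < n ∧ f^[n] a = a ∧ ∀ j, 0 < j → j < n → f^[j] a ≠ a

lemma Per.inj_on {α : Type*} {f : α → α} (hf : Injective f) {n : ℕ} {a : α} (h : Per f n a)
    {i j : ℕ} (hi : i < n) (hj : j < n) (he : f^[i] a = f^[j] a) : i = j := by
  obtain ⟨h0, h1, h2⟩ := h
  rcases lt_trichotomy i j with hl | hl | hl
  · exfalso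
    have e : f^[i] a = f^[i] (f^[j - i] a) := by
      rw [← iterate_add_apply, show i + (j - i) = j by omega]; exact he
    exact h2 (j - i) (by omega) (by omega) (hf.iterate i e).symm
  · exact hl
  · exfalso
    have e : f^[j] a = f^[j] (f^[i - j] a) := by
      rw [← iterate_add_apply, show j + (i - j) = i by omega]; exact he.symm
    exact h2 (i - j) (by omega) (by omega) (hf.iterate j e).symm

lemma Per.next {α : Type*} {f : α → α} (hf : Injective f) {n : ℕ} {a : α} (h : Per f n a) :
    Per f n (f a) := by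
  obtain ⟨h0, h1, h2⟩ := h
  refine ⟨h0, ?_, fun j hj1 hj2 h3 => h2 j hj1 hj2 ?_⟩
  · rw [← iterate_succ_apply, iterate_succ_apply', h1]
  · rw [← iterate_succ_apply, iterate_succ_apply'] at h3
    exact hf h3

lemma Per.iter {α : Type*} {f : α → α} (hf : Injective f) {n : ℕ} {a : α} (h : Per f n a) (k : ℕ) :
    Per f n (f^[k] a) := by
  induction k with
  | zero => exact h
  | succ k ih => rw [iterate_succ_apply']; exact ih.next hf

lemma Per.exists {α : Type*} {f : α → α} {a : α} (h : a ∈ periodicPts f) : ∃ n, Per f n a := by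
  refine ⟨minimalPeriod f a, minimalPeriod_pos_of_mem_periodicPts h, iterate_minimalPeriod, ?_⟩
  intro j h1 h2 h3
  exact not_isPeriodicPt_of_pos_of_lt_minimalPeriod (by omega) h2 h3

lemma Per.mod {α : Type*} {f : α → α} {n : ℕ} {a : α} (h : Per f n a) (j : ℕ) :
    f^[j] a = f^[j % n] a := by
  have h1 : IsPeriodicPt f n a := h.2.1
  conv_lhs => rw [← Nat.mod_add_div j n]
  rw [iterate_add_apply]
  congr 1
  exact (h1.mul_const _)

section nx
variable {g : Half τ → Half τ}

lemma nx_fst (n : ℕ) (p : Half τ × ℤ) : ((nx g)^[n] p).1 = (rot g)^[n] p.1 := by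
  induction n with
  | zero => rfl
  | succ n ih => rw [iterate_succ_apply', iterate_succ_apply', ← ih]; rfl

lemma nx_shift (n : ℕ) (z : Half τ) (d c : ℤ) :
    (nx g)^[n] (z, d + c) = (((nx g)^[n] (z, d)).1, ((nx g)^[n] (z, d)).2 + c) := by
  induction n with
  | zero => rfl
  | succ n ih =>
    rw [iterate_succ_apply', iterate_succ_apply', ih]
    unfold nx
    simp only [Prod.mk.injEq, true_and]
    ring

/-- the labelled cycle -/
def cyc (g : Half τ → Half τ) (p : Half τ × ℤ) (n : ℕ) : List (Half τ × ℤ) :=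
  (List.range n).map fun j => (nx g)^[j] p

/-- the boundary half edges of the cycle -/
def bcyc (g : Half τ → Half τ) (p : Half τ × ℤ) (n : ℕ) : List (Half τ × ℤ) :=
  (cyc g p n).filter fun q => g q.1 = q.1

lemma cyc_succ (p : Half τ × ℤ) (n : ℕ) : cyc g p (n + 1) = cyc g p n ++ [(nx g)^[n] p] := by
  unfold cyc
  rw [List.range_succ, List.map_append]
  rfl

lemma cyc_succ' (p : Half τ × ℤ) (n : ℕ) : cyc g p (n + 1) = p :: cyc g (nx g p) n := by
  unfold cyc
  rw [List.range_succ_eq_map, List.map_cons, List.map_map]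
  rfl

lemma cyc_add (p : Half τ × ℤ) (m n : ℕ) :
    cyc g p (m + n) = cyc g p m ++ cyc g ((nx g)^[m] p) n := by
  induction n with
  | zero => simp [cyc]
  | succ n ih =>
    rw [← Nat.add_assoc, cyc_succ, ih, cyc_succ, List.append_assoc, ← iterate_add_apply,
      Nat.add_comm n m]

lemma bcyc_add (p : Half τ × ℤ) (m n : ℕ) :
    bcyc g p (m + n) = bcyc g p m ++ bcyc g ((nx g)^[m] p) n := by
  unfold bcyc
  rw [cyc_add, List.filter_append]

lemma bcyc_one (p : Half τ × ℤ) : bcyc g p 1 = if g p.1 = p.1 then [p] else [] := by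
  unfold bcyc cyc
  by_cases h : g p.1 = p.1
  · rw [if_pos h]; simp [h]
  · rw [if_neg h]; simp [h]

lemma cyc_shift (z : Half τ) (d c : ℤ) (n : ℕ) :
    cyc g (z, d + c) n = (cyc g (z, d) n).map fun p => (p.1, p.2 + c) := by
  unfold cyc
  rw [List.map_map]
  refine List.map_congr_left fun j _ => ?_
  exact nx_shift j z d c

lemma bcyc_shift (z : Half τ) (d c : ℤ) (n : ℕ) :
    bcyc g (z, d + c) n = (bcyc g (z, d) n).map fun p => (p.1, p.2 + c) := by
  unfold bcyc
  rw [cyc_shift, List.filter_map]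
  rfl

/-- the law at a labelled half edge -/
structure LawAt (ω : Finset τ) (g : Half τ → Half τ) (p : Half τ × ℤ) (n : ℕ) : Prop where
  close : (nx g)^[n] p = (p.1, p.2 + 4)
  pl : Pl (Run ω g) (bcyc g p n)

variable {ω : Finset τ} {p : Half τ × ℤ} {n : ℕ}

lemma LawAt.next (hg : ∀ x, g (g x) = x) (hn : 0 < n) (h : LawAt ω g p n) :
    LawAt ω g (nx g p) n := by
  obtain ⟨z, d⟩ := p
  have hs : ∀ a b t, Run ω g a b t → Run ω g b a (-t) := fun a b t h => h.symm hg
  refine ⟨?_, ?_⟩
  · rw [← iterate_succ_apply, iterate_succ_apply', h.close]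
    unfold nx
    simp only [Prod.mk.injEq, true_and]
    ring
  · obtain ⟨m, rfl⟩ : ∃ m, n = m + 1 := ⟨n - 1, by omega⟩
    have h1 : bcyc g (z, d) (m + 1) =
        (if g z = z then [(z, d)] else []) ++ bcyc g (nx g (z, d)) m := by
      rw [Nat.add_comm, bcyc_add, bcyc_one]
      rfl
    have h2 : bcyc g (nx g (z, d)) (m + 1) = bcyc g (nx g (z, d)) m ++
        (if g z = z then [(z, d + 4)] else []) := by
      rw [bcyc_add, bcyc_one, ← iterate_succ_apply, h.close]
    have h3 := h.pl
    rw [h1] at h3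
    rw [h2]
    by_cases hz : g z = z
    · rw [if_pos hz] at h3 ⊢
      exact Pl.rotate hs h3
    · rw [if_neg hz] at h3 ⊢
      simpa using h3

lemma LawAt.iter (hg : ∀ x, g (g x) = x) (hn : 0 < n) (h : LawAt ω g p n) (k : ℕ) :
    LawAt ω g ((nx g)^[k] p) n := by
  induction k with
  | zero => exact h
  | succ k ih => rw [iterate_succ_apply']; exact ih.next hg hn

lemma LawAt.shift {z : Half τ} {d : ℤ} (h : LawAt ω g (z, d) n) (c : ℤ) :
    LawAt ω g (z, d + c) n := by
  refine ⟨?_, ?_⟩
  · rw [nx_shift, h.close]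
    simp only [Prod.mk.injEq, true_and]
    ring
  · rw [bcyc_shift]
    exact h.pl.shift c

lemma LawAt.relabel {z : Half τ} {d : ℤ} (h : LawAt ω g (z, d) n) (d' : ℤ) :
    LawAt ω g (z, d') n := by
  have := h.shift (d' - d)
  rwa [show d + (d' - d) = d' by ring] at this

/-- the law can be checked at any half edge of the rotation cycle -/
lemma LawAt.of_orbit (hg : ∀ x, g (g x) = x) (hn : 0 < n) {z w : Half τ} {d : ℤ} (d' : ℤ)
    (h : LawAt ω g (w, d) n) (hw : ∃ k, (rot g)^[k] w = z) : LawAt ω g (z, d') n := by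
  obtain ⟨k, hk⟩ := hw
  have h1 := h.iter hg hn k
  have h2 : ((nx g)^[k] (w, d)).1 = z := by rw [nx_fst]; exact hk
  have h3 : (nx g)^[k] (w, d) = (z, ((nx g)^[k] (w, d)).2) := by rw [← h2]
  rw [h3] at h1
  exact h1.relabel d'

end nx

/-! ### ungluing -/

/-- the sides `x` and `y` are unglued -/
def ung (g : Half τ → Half τ) (x y : Half τ) (z : Half τ) : Half τ :=
  if z = x ∨ z = y then z else g z

section ung
variable {g : Half τ → Half τ} {x y z : Half τ}

lemma ung_x : ung g x y x = x := if_pos (Or.inl rfl)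
lemma ung_y : ung g x y y = y := if_pos (Or.inr rfl)
lemma ung_o (h1 : z ≠ x) (h2 : z ≠ y) : ung g x y z = g z := if_neg (by tauto)

lemma ung_ne (h : ung g x y z ≠ z) : z ≠ x ∧ z ≠ y := by
  constructor
  · rintro rfl; exact h ung_x
  · rintro rfl; exact h ung_y

lemma ung_ext (h : ung g x y z ≠ z) : g z = ung g x y z := by
  obtain ⟨h1, h2⟩ := ung_ne h
  rw [ung_o h1 h2]

lemma glu_ung {T : Finset τ} (hG : Glu T g) (hxy : g x = y) : Glu T (ung g x y) := by
  have hyx : g y = x := by rw [← hxy, hG.inv]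
  refine ⟨fun z => ?_, fun z hz => ?_, fun z hz => ?_⟩
  · by_cases h1 : z = x
    · rw [h1, ung_x, ung_x]
    · by_cases h2 : z = y
      · rw [h2, ung_y, ung_y]
      · rw [ung_o h1 h2]
        have h3 : g z ≠ x := fun h => h2 (by rw [← hG.inv z, h, hxy])
        have h4 : g z ≠ y := fun h => h1 (by rw [← hG.inv z, h, hyx])
        rw [ung_o h3 h4, hG.inv]
  · unfold ung
    split_ifs
    · exact hz
    · exact hG.mem z hz
  · unfold ung
    split_ifs
    · rfl
    · exact hG.out z hz

lemma straight_ung (hs : Straight g) : Straight (ung g x y) := by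
  intro z hz
  rw [← ung_ext hz]
  refine hs z ?_
  rw [ung_ext hz]; exact hz

lemma rot_ung_x : rot (ung g x y) x = rho x := by unfold rot; rw [ung_x]
lemma rot_ung_y : rot (ung g x y) y = rho y := by unfold rot; rw [ung_y]
lemma rot_ung_o (h1 : z ≠ x) (h2 : z ≠ y) : rot (ung g x y) z = rot g z := by
  unfold rot; rw [ung_o h1 h2]

lemma nx_ung_o {p : Half τ × ℤ} (h1 : p.1 ≠ x) (h2 : p.1 ≠ y) : nx (ung g x y) p = nx g p := by
  unfold nx inc
  rw [rot_ung_o h1 h2, ung_o h1 h2]

lemma nx_ung_iter {p : Half τ × ℤ} {n : ℕ}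
    (h : ∀ j < n, (rot g)^[j] p.1 ≠ x ∧ (rot g)^[j] p.1 ≠ y) :
    ∀ j ≤ n, (nx (ung g x y))^[j] p = (nx g)^[j] p := by
  intro j hj
  induction j with
  | zero => rfl
  | succ j ih =>
    have h1 := h j (by omega)
    rw [← nx_fst] at h1
    rw [iterate_succ_apply', iterate_succ_apply', ih (by omega), nx_ung_o h1.1 h1.2]

lemma bcyc_ung {p : Half τ × ℤ} {n : ℕ}
    (h : ∀ j < n, (rot g)^[j] p.1 ≠ x ∧ (rot g)^[j] p.1 ≠ y) :
    bcyc (ung g x y) p n = bcyc g p n := by
  unfold bcyc
  have h1 : cyc (ung g x y) p n = cyc g p n := by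
    unfold cyc
    refine List.map_congr_left fun j hj => ?_
    exact nx_ung_iter h j (List.mem_range.1 hj).le
  rw [h1]
  refine List.filter_congr fun q hq => ?_
  unfold cyc at hq
  simp only [List.mem_map, List.mem_range] at hq
  obtain ⟨j, hj, rfl⟩ := hq
  have h2 := h j hj
  rw [← nx_fst] at h2
  rw [ung_o h2.1 h2.2]

/-- joining the ends `x` and `y` -/
lemma jn (hg : ∀ x, g (g x) = x) (hxy : g x = y) (hne : x ≠ y) (ω : Finset τ) :
    Pl.Jn (Run ω (ung g x y)) (Run ω g) x y := by
  have hyx : g y = x := by rw [← hxy, hg]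
  have hm : ∀ a b t, Run ω (ung g x y) a b t → Run ω g a b t :=
    fun a b t h => h.mono fun z hz => ung_ext hz
  refine ⟨hm, fun a b s t h1 h2 => ?_, fun a b s t h1 h2 => ?_⟩
  · have h3 := (hm _ _ _ h2).symm hg
    rw [← hxy] at h3
    exact (hm _ _ _ h1).trans (by rw [hxy]; exact Ne.symm hne) h3
  · have h3 := (hm _ _ _ h1).symm hg
    rw [← hyx] at h3
    exact (hm _ _ _ h2).trans (by rw [hyx]; exact hne) h3

end ung

end Full.Turn
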