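import Pool.Agent.Full.Turn.Law

/-!
# Closed strands turn by four quarter turns
-/

set_option autoImplicit false

namespace Full.Turn
open Function Relation Full

variable {τ : Type*} [DecidableEq τ] {T : Finset τ} {g : Half τ → Half τ} {ω : Finset τ}

/-- a strand does not come back to its beginning -/
lemma Run.ne (hG : Glu T g) {x z : Half τ} {a : ℤ} (hx : g x = x) (hz : g z = z)
    (h : Run ω g x z a) : z ≠ x := by
  intro he
  have h1 := run_other (ω := ω) hG hx
  have h2 := (hG.two ω).other_fix hx (hG.periodic ω x)
  have h3 := (h.unique hz h1 h2).1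
  exact (hG.two ω).other_ne hx (hG.periodic ω x) (by rw [← h3, he])

/-- the strand between the two unglued sides -/
theorem run_xy (hG : Glu T g) (hf : Flat T g) (hs : Straight g) (hsc : SC T g) {x y : Half τ}
    (hx : x.1 ∈ T) (hxy : g x = y) (hne : x ≠ y)
    (hb : ∃ j, g ((rot g)^[j] x) = (rot g)^[j] x) (IH : Law T (ung g x y) ω) {a : ℤ}
    (hr : Run ω (ung g x y) x y a) : a = -4 := by
  set g' := ung g x y with hg'
  have hG' : Glu T g' := glu_ung hG hxy
  have hyx : g y = x := by rw [← hxy, hG.inv]
  have hy : y.1 ∈ T := by rw [← hxy]; exact hG.mem x hx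
  have fx : g' x = x := ung_x
  have fy : g' y = y := ung_y
  have hsy : ∀ a b t, Run ω g' a b t → Run ω g' b a (-t) := fun a b t h => h.symm hG'.inv
  have hri := hG.rot_inj
  by_cases hj : ∃ k, (rot g)^[k] x = y
  · -- different boundary cycles
    exfalso
    have hno : ∀ j, (rot g')^[j] y ≠ x := by
      obtain ⟨n, hnx⟩ := Per.exists (hG.rot_periodic x)
      obtain ⟨k0, hk0⟩ := hj
      obtain ⟨k, hkn, hk⟩ : ∃ k, k < n ∧ (rot g)^[k] x = y :=
        ⟨k0 % n, Nat.mod_lt _ hnx.1, by rw [← hnx.mod]; exact hk0⟩
      have hk1 : 0 < k := by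
        rcases Nat.eq_zero_or_pos k with h | h
        · rw [h] at hk; exact absurd hk hne
        · exact h
      obtain ⟨m, rfl⟩ : ∃ m, k = m + 1 := ⟨k - 1, by omega⟩
      have v1 : ∀ j < m, (rot g)^[j] (rot g x) ≠ x ∧ (rot g)^[j] (rot g x) ≠ y := by
        intro j hj
        rw [← iterate_succ_apply]
        refine ⟨hnx.2.2 _ (by omega) (by omega), fun h => ?_⟩
        have := hnx.inj_on hri (i := j.succ) (j := m + 1) (by omega) (by omega) (by rw [h, hk])
        omega
      have e : ∀ j ≤ m, (rot g')^[j] (rot g x) = (rot g)^[j] (rot g x) := by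
        intro j hj
        have h1 := nx_ung_iter (p := (rot g x, (0 : ℤ))) (n := m) v1 j hj
        have h2 := congrArg Prod.fst h1
        rw [nx_fst, nx_fst] at h2
        exact h2
      have e1 : rot g' y = rot g x := by
        rw [hg', rot_ung_y]; unfold rot; rw [hxy]
      have hper : (rot g')^[m + 1] y = y := by
        rw [iterate_succ_apply, e1, e m le_rfl, ← iterate_succ_apply]; exact hk
      have hmod : ∀ j, (rot g')^[j] y = (rot g')^[j % (m + 1)] y := by
        intro j
        have h1 : IsPeriodicPt (rot g') (m + 1) y := hper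
        conv_lhs => rw [← Nat.mod_add_div j (m + 1)]
        rw [iterate_add_apply]
        congr 1
        exact (h1.mul_const _)
      intro j
      rw [hmod j]
      have hlt : j % (m + 1) < m + 1 := Nat.mod_lt _ (by omega)
      rcases Nat.eq_zero_or_pos (j % (m + 1)) with h0 | h0
      · rw [h0]; exact hne.symm
      · obtain ⟨i, hi⟩ : ∃ i, j % (m + 1) = i + 1 := ⟨j % (m + 1) - 1, by omega⟩
        rw [hi, iterate_succ_apply, e1, e i (by omega)]
        exact (v1 i (by omega)).1
    obtain ⟨n, hn⟩ := Per.exists (hG'.rot_periodic y)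
    have L := IH y 0 n hy hn ⟨0, fy⟩
    have hmem : ((y, 0) : Half τ × ℤ) ∈ bcyc g' (y, 0) n := by
      obtain ⟨m, rfl⟩ : ∃ m, n = m + 1 := ⟨n - 1, by have := hn.1; omega⟩
      unfold bcyc
      rw [cyc_succ', List.mem_filter]
      exact ⟨List.mem_cons_self, by simpa using fy⟩
    obtain ⟨q, hq, t, ht⟩ := L.pl.exists_mate hsy _ hmem
    unfold bcyc cyc at hq
    simp only [List.mem_filter, List.mem_map, List.mem_range, decide_eq_true_eq] at hq
    obtain ⟨⟨j, -, rfl⟩, hq2⟩ := hq
    have h1 := (ht.unique hq2 (hr.symm hG'.inv) fx).1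
    rw [nx_fst] at h1
    exact hno j h1
  · -- zip
    have hyo : ∀ j, g ((rot g)^[j] y) ≠ (rot g)^[j] y := by
      intro j hjy
      apply hj
      obtain ⟨i, hi⟩ := hb
      obtain ⟨n0, hn0⟩ := Per.exists (hG.rot_periodic x)
      obtain ⟨n1, hn1⟩ := Per.exists (hG.rot_periodic y)
      obtain ⟨k1, hk1⟩ := hn0.back i
      have hr : Reach g ((rot g)^[i] x) ((rot g)^[j] y) := by
        have r1 : Reach g ((rot g)^[i] x) x := by
          have := reach_orb (g := g) k1 ((rot g)^[i] x)
          rwa [hk1] at this
        exact (r1.tail (Or.inr hxy.symm)).trans (reach_orb j y)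
      have hT : ∀ i, ((rot g)^[i] x).1 ∈ T := by
        intro i
        induction i with
        | zero => exact hx
        | succ i ih => rw [iterate_succ_apply']; exact hG.mem _ ih
      obtain ⟨k, hk⟩ := sc_orbit hG hsc (hT i) hi hjy hr
      obtain ⟨k2, hk2⟩ := hn1.back j
      refine ⟨k2 + (k + i), ?_⟩
      rw [iterate_add_apply, iterate_add_apply, hk, hk2]
    have h4 : (rot g)^[4] y = y := hf y hy hyo
    have hyx' : ∀ j, (rot g)^[j] y ≠ x := by
      intro j h
      obtain ⟨n1, hn1⟩ := Per.exists (hG.rot_periodic y)
      obtain ⟨k, hk⟩ := hn1.back j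
      rw [h] at hk
      exact hj ⟨k, hk⟩
    have hny : ∀ j, 0 < j → j < 4 → (rot g)^[j] y ≠ y := by
      have hd : ∀ j, ((rot g)^[j + 1] y).2 = ((rot g)^[j] y).2.cw := by
        intro j
        rw [iterate_succ_apply']
        show (g ((rot g)^[j] y)).2.ccw = _
        rw [hs _ (hyo j), Dir.ccw_opp]
      intro j hj1 hj2 h
      have d1 := hd 0
      have d2 := hd 1
      have d3 := hd 2
      have d0 : ((rot g)^[0] y).2 = y.2 := rfl
      rw [d0] at d1
      rw [d1] at d2
      rw [d2] at d3
      interval_cases j
      · rw [h] at d1; cases h0 : y.2 <;> rw [h0] at d1 <;> exact absurd d1 (by decide)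
      · rw [h] at d2; cases h0 : y.2 <;> rw [h0] at d2 <;> exact absurd d2 (by decide)
      · rw [h] at d3; cases h0 : y.2 <;> rw [h0] at d3 <;> exact absurd d3 (by decide)
    -- the four half edges at the interior corner
    have s0 : ∀ (j : ℕ) (e : ℤ), 0 < j → j < 4 →
        nx g' ((rot g)^[j] y, e) = ((rot g)^[j + 1] y, e + -1) := by
      intro j e h1 h2
      rw [hg', nx_ung_o (p := ((rot g)^[j] y, e)) (hyx' j) (hny j h1 h2)]
      unfold nx inc
      rw [if_neg (hyo j), iterate_succ_apply']
    have sx : ∀ e, nx g' (x, e) = ((rot g)^[1] y, e + 1) := by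
      intro e
      unfold nx inc
      rw [if_pos fx]
      refine Prod.ext ?_ rfl
      show rot g' x = rot g y
      rw [hg', rot_ung_x]
      unfold rot; rw [hyx]
    have i1 : (nx g')^[1] (x, 0) = ((rot g)^[1] y, 1) := by
      rw [iterate_one, sx]; rfl
    have i2 : (nx g')^[2] (x, 0) = ((rot g)^[2] y, 0) := by
      rw [iterate_succ_apply', i1, s0 1 1 (by norm_num) (by norm_num)]; rfl
    have i3 : (nx g')^[3] (x, 0) = ((rot g)^[3] y, -1) := by
      rw [iterate_succ_apply', i2, s0 2 0 (by norm_num) (by norm_num)]; rfl
    have i4 : (nx g')^[4] (x, 0) = (y, -2) := by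
      rw [iterate_succ_apply', i3, s0 3 (-1) (by norm_num) (by norm_num), h4]; rfl
    obtain ⟨n, hn⟩ := Per.exists (hG'.rot_periodic x)
    have L := IH x 0 n hx hn ⟨0, fx⟩
    have e4 : (rot g')^[4] x = y := by
      have := nx_fst (g := g') 4 (x, (0 : ℤ))
      rw [i4] at this
      exact this.symm
    have e1 : (rot g')^[1] x = (rot g)^[1] y := by
      have := nx_fst (g := g') 1 (x, (0 : ℤ))
      rw [i1] at this
      exact this.symm
    have e2 : (rot g')^[2] x = (rot g)^[2] y := by
      have := nx_fst (g := g') 2 (x, (0 : ℤ))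
      rw [i2] at this
      exact this.symm
    have e3 : (rot g')^[3] x = (rot g)^[3] y := by
      have := nx_fst (g := g') 3 (x, (0 : ℤ))
      rw [i3] at this
      exact this.symm
    have n5 : 5 ≤ n := by
      by_contra hlt
      have h0 := hn.1
      have h1 := hn.2.1
      have : n = 1 ∨ n = 2 ∨ n = 3 ∨ n = 4 := by omega
      rcases this with rfl | rfl | rfl | rfl
      · rw [e1] at h1; exact hyx' 1 h1
      · rw [e2] at h1; exact hyx' 2 h1
      · rw [e3] at h1; exact hyx' 3 h1
      · rw [e4] at h1; exact hne h1.symm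
    obtain ⟨m, rfl⟩ : ∃ m, n = 1 + 3 + 1 + m := ⟨n - 5, by omega⟩
    have p := L.pl
    have b1 : bcyc g' (x, 0) 1 = [(x, 0)] := by rw [bcyc_one, if_pos fx]
    have b2 : bcyc g' ((nx g')^[1] (x, 0)) 3 = [] := by
      unfold bcyc cyc
      rw [List.filter_eq_nil_iff]
      intro q hq
      simp only [List.mem_map, List.mem_range] at hq
      obtain ⟨j, hj', rfl⟩ := hq
      rw [← iterate_add_apply]
      simp only [decide_eq_true_eq]
      rw [nx_fst]
      show ¬ g' ((rot g')^[j + 1] x) = (rot g')^[j + 1] x
      interval_cases j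
      · show ¬ g' ((rot g')^[1] x) = (rot g')^[1] x
        rw [e1, hg', ung_o (hyx' 1) (hny 1 (by norm_num) (by norm_num))]
        exact hyo 1
      · show ¬ g' ((rot g')^[2] x) = (rot g')^[2] x
        rw [e2, hg', ung_o (hyx' 2) (hny 2 (by norm_num) (by norm_num))]
        exact hyo 2
      · show ¬ g' ((rot g')^[3] x) = (rot g')^[3] x
        rw [e3, hg', ung_o (hyx' 3) (hny 3 (by norm_num) (by norm_num))]
        exact hyo 3
    have b3 : bcyc g' (y, -2) 1 = [(y, -2)] := by rw [bcyc_one, if_pos fy]
    have p1 : bcyc g' (x, 0) (1 + 3 + 1 + m) = (x, 0) :: ((y, -2) ::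
        bcyc g' ((nx g')^[5] (x, 0)) m) := by
      rw [bcyc_add (m := 1 + 3 + 1), bcyc_add (m := 1 + 3), bcyc_add (m := 1), b1, b2,
        show (nx g')^[1 + 3] (x, 0) = (y, -2) from i4, b3]
      rfl
    rw [p1] at p
    -- elements of the rest are not `x`
    have hrest : ∀ q ∈ (y, (-2 : ℤ)) :: bcyc g' ((nx g')^[5] (x, 0)) m, g' q.1 = q.1 ∧ q.1 ≠ x := by
      intro q hq
      rw [List.mem_cons] at hq
      rcases hq with rfl | hq
      · exact ⟨fy, hne.symm⟩
      · unfold bcyc cyc at hq
        simp only [List.mem_filter, List.mem_map, List.mem_range, decide_eq_true_eq] at hq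
        obtain ⟨⟨j, hj', rfl⟩, hq2⟩ := hq
        refine ⟨hq2, ?_⟩
        rw [← iterate_add_apply, nx_fst]
        exact hn.2.2 (j + 5) (by omega) (by omega)
    generalize hrr : bcyc g' ((nx g')^[5] (x, 0)) m = r at p hrest
    generalize hll : (y, (-2 : ℤ)) :: r = ll at p hrest
    cases p with
    | @arc _ b _ e l1 l2 hR h1 h2 =>
      have hb' := hrest (b, e) (by simp)
      have hbb := (hR.unique hb'.1 hr fy)
      rcases l1 with _ | ⟨c, l1⟩
      · have h5 : (y, (-2 : ℤ)) = (b, e) := by
          have : (y, (-2 : ℤ)) :: r = (b, e) :: l2 := by rw [hll]; rfl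
          exact (List.cons.inj this).1
        obtain ⟨rfl, rfl⟩ := Prod.mk.inj h5
        have := hbb.2
        omega
      · exfalso
        have h5 : (y, (-2 : ℤ)) = c := by
          have : (y, (-2 : ℤ)) :: r = c :: (l1 ++ (b, e) :: l2) := by rw [hll]; rfl
          exact (List.cons.inj this).1
        subst h5
        obtain ⟨q, hq, t, ht⟩ := h1.exists_mate hsy (y, (-2 : ℤ)) List.mem_cons_self
        have h6 := hrest q (by
          rw [List.mem_cons] at hq
          rcases hq with rfl | hq
          · simp
          · simp [hq])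
        have h7 := (ht.unique h6.1 (hr.symm hG'.inv) fx).1
        exact h6.2 h7

omit [DecidableEq τ] in
/-- the turning over one period does not depend on the starting point -/
lemma tsum_rot (F : Half τ → Half τ) (h : Half τ → ℤ) {N : ℕ} {z : Half τ} (hz : F^[N] z = z)
    (k : ℕ) : ∑ j ∈ Finset.range N, h (F^[j] (F^[k] z)) = ∑ j ∈ Finset.range N, h (F^[j] z) := by
  induction k with
  | zero => rfl
  | succ k ih =>
    rw [← ih, iterate_succ_apply']
    have h1 : ∀ w : Half τ, F^[N] w = w → ∑ j ∈ Finset.range N, h (F^[j] (F w)) =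
        ∑ j ∈ Finset.range N, h (F^[j] w) := by
      intro w hw
      have h2 := Finset.sum_range_succ (fun j => h (F^[j] w)) N
      have h3 := Finset.sum_range_succ' (fun j => h (F^[j] w)) N
      rw [h2] at h3
      simp only [iterate_succ_apply, iterate_zero, id_eq, hw] at h3
      linarith
    apply h1
    rw [← iterate_add_apply, Nat.add_comm, iterate_add_apply, hz]

/-- **closed strands turn by four quarter turns** -/
theorem loop_law (hG : Glu T g) (hs : Straight g) (hf : Flat T g) (ho : Open T g) (hsc : SC T g)
    (ω : Finset τ) {z : Half τ} (hz : z.1 ∈ T)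
    (hc : ∀ j, g (mate ω ((g ∘ mate ω)^[j] z)) ≠ mate ω ((g ∘ mate ω)^[j] z)) :
    tsum ω g z (minimalPeriod (g ∘ mate ω) z) = 4 ∨
      tsum ω g z (minimalPeriod (g ∘ mate ω) z) = -4 := by
  obtain ⟨N, hN⟩ : ∃ N, ((T ×ˢ (Finset.univ : Finset Dir)).filter (fun z => g z ≠ z)).card = N :=
    ⟨_, rfl⟩
  induction N using Nat.strong_induction_on generalizing g z with
  | _ N IH =>
    have hz0 : (mate ω z).1 ∈ T := hz
    obtain ⟨x, hx, hgx, hb⟩ := exists_side hG ho hz0 (hc 0)
    set y := g x with hy
    have hne : x ≠ y := Ne.symm hgx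
    have hG' : Glu T (ung g x y) := glu_ung hG rfl
    have hyx : g y = x := by rw [hy, hG.inv]
    have hL : Law T (ung g x y) ω := law hG' (straight_ung hs) (flat_ung hf) (open_ung ho)
      (sc_ung hG hx rfl hne hb hsc) ω
    set F := g ∘ mate ω with hF
    set F' := ung g x y ∘ mate ω with hF'
    by_cases hav : ∀ j, mate ω (F^[j] z) ≠ x ∧ mate ω (F^[j] z) ≠ y
    · -- the loop avoids the two sides
      have hit : ∀ j, F'^[j] z = F^[j] z := by
        intro j
        induction j with
        | zero => rfl
        | succ j ih =>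
          rw [iterate_succ_apply', iterate_succ_apply', ih]
          exact ung_o (hav j).1 (hav j).2
      have hmp : minimalPeriod F' z = minimalPeriod F z := by
        apply Nat.dvd_antisymm
        · rw [← isPeriodicPt_iff_minimalPeriod_dvd]
          show F'^[_] z = z
          rw [hit, iterate_minimalPeriod]
        · rw [← isPeriodicPt_iff_minimalPeriod_dvd]
          show F^[_] z = z
          rw [← hit, iterate_minimalPeriod]
      have hts : tsum ω g z (minimalPeriod F z) = tsum ω (ung g x y) z (minimalPeriod F' z) := by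
        rw [hmp]
        unfold tsum
        exact Finset.sum_congr rfl fun j _ => by rw [← hF, ← hF', hit]
      rw [hts]
      refine IH _ ?_ hG' (straight_ung hs) (flat_ung hf) (open_ung ho)
        (sc_ung hG hx rfl hne hb hsc) hz ?_ rfl
      · rw [← hN]
        apply Finset.card_lt_card
        rw [Finset.ssubset_iff_of_subset]
        · refine ⟨x, ?_, ?_⟩
          · simp only [Finset.mem_filter, Finset.mem_product, Finset.mem_univ, and_true]
            exact ⟨hx, hgx⟩
          · simp only [Finset.mem_filter, not_and, not_not]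
            intro _
            exact ung_x
        · intro w hw
          simp only [Finset.mem_filter, Finset.mem_product, Finset.mem_univ, and_true] at hw ⊢
          refine ⟨hw.1, ?_⟩
          rw [ung_ext hw.2]
          exact hw.2
      · intro j
        rw [← hF', hit, ung_o (hav j).1 (hav j).2]
        exact hc j
    · -- the loop is closed by the two sides
      have key : ∀ u v : Half τ, g v = u → g u = v → u ≠ v → (u = x ∧ v = y ∨ u = y ∧ v = x) →
          (∀ j, g (mate ω (F^[j] u)) ≠ mate ω (F^[j] u)) →
          Run ω (ung g x y) u v (tsum ω g u (minimalPeriod F u)) := by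
        intro u v hvu huv huv' hor hcu
        have hfix : ∀ w : Half τ, ung g x y w = w → g w ≠ w → w = u ∨ w = v := by
          intro w h1 h2
          by_contra h3
          push Not at h3
          have : w ≠ x ∧ w ≠ y := by
            rcases hor with ⟨rfl, rfl⟩ | ⟨rfl, rfl⟩
            · exact h3
            · exact ⟨h3.2, h3.1⟩
          rw [ung_o this.1 this.2] at h1
          exact h2 h1
        have fu : ung g x y u = u := by
          rcases hor with ⟨rfl, rfl⟩ | ⟨rfl, rfl⟩
          · exact ung_x
          · exact ung_y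
        have fv : ung g x y v = v := by
          rcases hor with ⟨rfl, rfl⟩ | ⟨rfl, rfl⟩
          · exact ung_y
          · exact ung_x
        have hper : u ∈ periodicPts F := hG.periodic ω u
        set M := minimalPeriod F u with hM
        have hMpos : 0 < M := minimalPeriod_pos_of_mem_periodicPts hper
        obtain ⟨m, hm⟩ : ∃ m, M = m + 1 := ⟨M - 1, by omega⟩
        have hlast : mate ω (F^[m] u) = v := by
          have h1 : F^[m + 1] u = u := by rw [← hm]; exact iterate_minimalPeriod
          rw [iterate_succ_apply'] at h1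
          have h2 : g (mate ω (F^[m] u)) = g v := h1.trans hvu.symm
          exact hG.inj h2
        -- the first exit through `u` or `v`
        have hex : ∃ j, mate ω (F^[j] u) = u ∨ mate ω (F^[j] u) = v := ⟨m, Or.inr hlast⟩
        classical
        obtain ⟨j, hj, hjmin⟩ : ∃ j, (mate ω (F^[j] u) = u ∨ mate ω (F^[j] u) = v) ∧
            ∀ i < j, ¬ (mate ω (F^[i] u) = u ∨ mate ω (F^[i] u) = v) :=
          ⟨Nat.find hex, Nat.find_spec hex, fun i hi => Nat.find_min hex hi⟩
        have hit : ∀ i ≤ j, F'^[i] u = F^[i] u := by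
          intro i hi
          induction i with
          | zero => rfl
          | succ i ih =>
            rw [iterate_succ_apply', iterate_succ_apply', ih (by omega)]
            have h1 := hjmin i (by omega)
            push Not at h1
            have : mate ω (F^[i] u) ≠ x ∧ mate ω (F^[i] u) ≠ y := by
              rcases hor with ⟨rfl, rfl⟩ | ⟨rfl, rfl⟩
              · exact h1
              · exact ⟨h1.2, h1.1⟩
            exact ung_o this.1 this.2
        have hrun : Run ω (ung g x y) u (mate ω (F^[j] u)) (tsum ω g u (j + 1)) := by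
          refine run_iff.2 ⟨j, ?_, ?_, ?_⟩
          · rw [← hF', hit j le_rfl]
          · unfold tsum
            refine Finset.sum_congr rfl fun i hi => ?_
            rw [Finset.mem_range] at hi
            rw [← hF, ← hF', hit i (by omega)]
          · intro i hi h1
            rw [← hF', hit i hi.le] at h1
            exact hjmin i hi (hfix _ h1 (hcu i))
        rcases hj with hj | hj
        · rw [hj] at hrun
          exact absurd rfl (Run.ne hG' fu fu hrun)
        · have h1 : F^[j + 1] u = u := by
            rw [iterate_succ_apply']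
            show g (mate ω (F^[j] u)) = u
            rw [hj, hvu]
          have h2 : M ∣ j + 1 := by
            rw [hM, ← isPeriodicPt_iff_minimalPeriod_dvd]
            exact h1
          have h3 : j ≤ m := by
            by_contra hlt
            exact hjmin m (by omega) (Or.inr hlast)
          have h4 : j + 1 = M := by
            have := Nat.le_of_dvd (by omega) h2
            omega
          rw [← h4]
          rw [hj] at hrun
          exact hrun
      -- rotate the loop
      have hrotn : ∀ k, tsum ω g z (minimalPeriod F z) =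
          tsum ω g (F^[k] z) (minimalPeriod F (F^[k] z)) := by
        intro k
        have h1 : minimalPeriod F (F^[k] z) = minimalPeriod F z :=
          minimalPeriod_apply_iterate (hG.periodic ω z) k
        rw [h1]
        unfold tsum
        rw [← hF]
        exact (tsum_rot F (tq ω) iterate_minimalPeriod k).symm
      have hcc : ∀ k j, g (mate ω (F^[j] (F^[k] z))) ≠ mate ω (F^[j] (F^[k] z)) := by
        intro k j
        rw [← iterate_add_apply]
        exact hc (j + k)
      push Not at hav
      obtain ⟨j, hj⟩ := hav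
      by_cases h1 : mate ω (F^[j] z) = x
      · have h2 : F^[j + 1] z = y := by
          rw [iterate_succ_apply']
          show g (mate ω (F^[j] z)) = y
          rw [h1]
        have h3 := hcc (j + 1)
        rw [h2] at h3
        have h4 := key y x rfl hyx hne.symm (Or.inr ⟨rfl, rfl⟩) h3
        have h5 := run_xy hG hf hs hsc hx rfl hne hb hL (h4.symm hG'.inv)
        left
        rw [hrotn (j + 1), h2]
        omega
      · have h2 : F^[j + 1] z = x := by
          rw [iterate_succ_apply']
          show g (mate ω (F^[j] z)) = x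
          rw [hj h1, hyx]
        have h3 := hcc (j + 1)
        rw [h2] at h3
        have h4 := key x y hyx rfl hne (Or.inl ⟨rfl, rfl⟩) h3
        have h5 := run_xy hG hf hs hsc hx rfl hne hb hL h4
        right
        rw [hrotn (j + 1), h2]
        exact h5

end Full.Turn
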