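import Pool.Agent.Full.Turn.Run

/-!
# Planar lists

`Pl R L`: the list `L` of labelled ends is perfectly matched without crossings, and two matched ends
`(a, d)`, `(b, e)` (in this order) satisfy `R a b (e - d - 2)`.
-/

set_option autoImplicit false

namespace Full.Turn
open List

variable {α : Type*}

/-- planar matchings of a list of labelled ends -/
inductive Pl (R : α → α → ℤ → Prop) : List (α × ℤ) → Prop
  | nil : Pl R []
  | arc {a b : α} {d e : ℤ} {l m : List (α × ℤ)} : R a b (e - d - 2) → Pl R l → Pl R m →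
      Pl R ((a, d) :: (l ++ (b, e) :: m))

namespace Pl
variable {R R' : α → α → ℤ → Prop} {l m : List (α × ℤ)} {a b x y : α} {d e c : ℤ}

lemma append (h : Pl R l) (h' : Pl R m) : Pl R (l ++ m) := by
  induction h with
  | nil => exact h'
  | @arc a b d e l1 l2 hR h1 h2 _ ih2 =>
    have := Pl.arc hR h1 ih2
    simpa using this

lemma mono (hR : ∀ a b t, R' a b t → R a b t) (h : Pl R' l) : Pl R l := by
  induction h with
  | nil => exact Pl.nil
  | arc h0 _ _ ih1 ih2 => exact Pl.arc (hR _ _ _ h0) ih1 ih2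

/-- decomposition at the last element -/
lemma last_dec (h : Pl R m) : ∀ l b e, m = l ++ [(b, e)] →
    ∃ l1 a d l2, l = l1 ++ (a, d) :: l2 ∧ R a b (e - d - 2) ∧ Pl R l1 ∧ Pl R l2 := by
  induction h with
  | nil =>
    intro l b e h
    exact absurd h (by simp)
  | @arc a b d e l1 l2 hR h1 h2 ih1 ih2 =>
    intro l b' e' h
    rcases eq_nil_or_concat l2 with h3 | ⟨l3, ⟨b3, e3⟩, h3⟩
    · subst h3
      have h4 : (a, d) :: l1 ++ [(b, e)] = l ++ [(b', e')] := by simpa using h
      have h5 := List.append_inj' h4 rfl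
      have h6 : (b, e) = (b', e') := by simpa using h5.2
      obtain ⟨rfl, rfl⟩ := Prod.mk.inj h6
      exact ⟨[], a, d, l1, by rw [← h5.1]; rfl, hR, Pl.nil, h1⟩
    · obtain ⟨m1, a', d', m2, e1, e2, e3', e4⟩ := ih2 l3 b3 e3 (by rw [h3]; simp)
      have h4 : ((a, d) :: (l1 ++ (b, e) :: l3)) ++ [(b3, e3)] = l ++ [(b', e')] := by
        rw [← h, h3]; simp
      have h5 := List.append_inj' h4 rfl
      have h6 : (b3, e3) = (b', e') := by simpa using h5.2
      obtain ⟨rfl, rfl⟩ := Prod.mk.inj h6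
      refine ⟨(a, d) :: (l1 ++ (b, e) :: m1), a', d', m2, ?_, e2, ?_, e4⟩
      · rw [← h5.1, e1]; simp
      · exact Pl.arc hR h1 e3'

lemma last (h : Pl R (l ++ [(b, e)])) :
    ∃ l1 a d l2, l = l1 ++ (a, d) :: l2 ∧ R a b (e - d - 2) ∧ Pl R l1 ∧ Pl R l2 :=
  last_dec h l b e rfl

/-- rotation -/
lemma rotate (hs : ∀ a b t, R a b t → R b a (-t)) (h : Pl R ((a, d) :: l)) :
    Pl R (l ++ [(a, d + 4)]) := by
  cases h with
  | @arc _ b _ e l1 l2 hR h1 h2 =>
    have h3 : R b a (d + 4 - e - 2) := by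
      have := hs _ _ _ hR
      convert this using 1
      ring
    have h4 : Pl R ((b, e) :: (l2 ++ (a, d + 4) :: [])) := Pl.arc h3 h2 Pl.nil
    have h5 := h1.append h4
    simpa using h5

/-- all labels can be shifted -/
lemma shift (c : ℤ) (h : Pl R l) : Pl R (l.map fun p => (p.1, p.2 + c)) := by
  induction h with
  | nil => exact Pl.nil
  | @arc a b d e l1 l2 hR _ _ ih1 ih2 =>
    have h3 : R a b ((e + c) - (d + c) - 2) := by
      convert hR using 1
      ring
    have := Pl.arc h3 ih1 ih2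
    simpa using this

/-- the ends `x` and `y` are joined -/
structure Jn (R' R : α → α → ℤ → Prop) (x y : α) : Prop where
  mono : ∀ a b t, R' a b t → R a b t
  join : ∀ a b s t, R' a x s → R' b y t → R a b (s - t)
  joi2 : ∀ a b s t, R' a x s → R' b y t → R b a (t - s)

/-- joining the two neighbours `x`, `y` at the end of a list -/
theorem zip (J : Jn R' R x y) (h : Pl R' (l ++ [(x, d), (y, d - 2)])) : Pl R l := by
  have h0 : Pl R' ((l ++ [(x, d)]) ++ [(y, d - 2)]) := by simpa using h
  obtain ⟨l1, a, da, l2, e1, e2, e3, e4⟩ := h0.last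
  rcases eq_nil_or_concat l2 with h3 | ⟨l3, ⟨x3, d3⟩, h3⟩
  · subst h3
    have h5 := List.append_inj' e1 rfl
    rw [h5.1]
    exact e3.mono J.mono
  · subst h3
    have h4 : l ++ [(x, d)] = (l1 ++ (a, da) :: l3) ++ [(x3, d3)] := by rw [e1]; simp
    have h5 := List.append_inj' h4 rfl
    have h6 : (x, d) = (x3, d3) := by simpa using h5.2
    obtain ⟨rfl, rfl⟩ := Prod.mk.inj h6
    have e4' : Pl R' (l3 ++ [(x, d)]) := by simpa using e4
    obtain ⟨m1, c, dc, m2, f1, f2, f3, f4⟩ := e4'.last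
    have h7 : R a c (dc - da - 2) := by
      have := J.joi2 _ _ _ _ f2 e2
      convert this using 1
      ring
    have h8 := Pl.arc h7 (f3.mono J.mono) (f4.mono J.mono)
    have h9 := (e3.mono J.mono).append h8
    rw [h5.1, f1]
    exact h9

/-- joining two planar systems at their last elements -/
theorem join2 (J : Jn R' R x y) (h : Pl R' (l ++ [(x, d)])) (h' : Pl R' (m ++ [(y, d + 2)])) :
    Pl R (l ++ m) := by
  obtain ⟨l1, a, da, l2, e1, e2, e3, e4⟩ := h.last
  obtain ⟨m1, b, db, m2, f1, f2, f3, f4⟩ := h'.last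
  have h7 : R a b (db - da - 2) := by
    have := J.join _ _ _ _ e2 f2
    convert this using 1
    ring
  have h8 := Pl.arc h7 ((e4.append f3).mono J.mono) (f4.mono J.mono)
  have h9 := (e3.mono J.mono).append h8
  rw [e1, f1]
  simpa using h9

/-- every end is matched with another one of the list -/
lemma exists_mate (hs : ∀ a b t, R a b t → R b a (-t)) (h : Pl R l) :
    ∀ p ∈ l, ∃ q ∈ l, ∃ t, R p.1 q.1 t := by
  induction h with
  | nil => intro p hp; exact absurd hp (by simp)
  | @arc a b d e l1 l2 hR _ _ ih1 ih2 =>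
    intro p hp
    simp only [List.mem_cons, List.mem_append] at hp ⊢
    rcases hp with rfl | hp | rfl | hp
    · exact ⟨(b, e), by simp, _, hR⟩
    · obtain ⟨q, hq, h⟩ := ih1 p hp
      exact ⟨q, by tauto, h⟩
    · exact ⟨(a, d), by simp, _, hs _ _ _ hR⟩
    · obtain ⟨q, hq, h⟩ := ih2 p hp
      exact ⟨q, by tauto, h⟩

end Pl

end Full.Turn
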