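import Pool.Agent.Full.Def.Surf

/-!
# Runs of strands and their turning

`tq ω x`: turning, in quarter turns (left = `1`), of the strand which enters a tile through its side
`x`.  `Run ω g x z a`: the strand which enters a tile through `x` leaves later some tile through `z`,
and its turning between is `a`.
-/

set_option autoImplicit false

namespace Full.Turn
open Function Relation Full

variable {τ : Type*} [DecidableEq τ]

/-- turning of the strand which enters a tile through the side `x` -/
def tq (ω : Finset τ) (x : Half τ) : ℤ := if mate ω x = rho x then -1 else 1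

omit [DecidableEq τ] in
lemma rho_rho_ne (x : Half τ) : rho (rho x) ≠ x := by
  obtain ⟨t, d⟩ := x
  intro h
  have := congrArg Prod.snd h
  cases d <;> simp [rho, Dir.ccw] at this

lemma tq_mate (ω : Finset τ) (x : Half τ) : tq ω (mate ω x) = - tq ω x := by
  unfold tq
  rw [mate_mate]
  rcases mate_cases ω x with h | h
  · rw [if_pos h, if_neg]
    · norm_num
    · rw [h]
      exact fun h2 => rho_rho_ne x h2.symm
  · rw [if_pos h.symm, if_neg]
    intro h2
    rw [h2] at h
    exact rho_rho_ne x h

/-- the strand which enters a tile through `x` leaves a tile through `z` after turning by `a` -/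
inductive Run (ω : Finset τ) (g : Half τ → Half τ) (x : Half τ) : Half τ → ℤ → Prop
  | one : Run ω g x (mate ω x) (tq ω x)
  | step {z : Half τ} {a : ℤ} : Run ω g x z a → g z ≠ z →
      Run ω g x (mate ω (g z)) (a + tq ω (g z))

variable {ω : Finset τ} {g g' : Half τ → Half τ} {x y z w : Half τ} {a b : ℤ}

/-- concatenation -/
lemma Run.trans (h1 : Run ω g x z a) (hz : g z ≠ z) (h2 : Run ω g (g z) w b) :
    Run ω g x w (a + b) := by
  induction h2 with
  | one => exact h1.step hz
  | @step v c _ hv ih =>
    have := ih.step hv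
    rwa [add_assoc] at this

/-- reversal -/
lemma Run.symm (hg : ∀ x, g (g x) = x) (h : Run ω g x z a) : Run ω g z x (-a) := by
  induction h with
  | one =>
    have h1 : Run ω g (mate ω x) (mate ω (mate ω x)) (tq ω (mate ω x)) := Run.one
    rwa [mate_mate, tq_mate] at h1
  | @step v c _ hv ih =>
    have h1 : Run ω g (mate ω (g v)) (mate ω (mate ω (g v))) (tq ω (mate ω (g v))) := Run.one
    rw [mate_mate, tq_mate] at h1
    have h2 : g (g v) ≠ g v := by rw [hg]; exact Ne.symm hv
    rw [← hg v] at ih
    have h3 := h1.trans h2 ih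
    have e : -tq ω (g v) + -c = -(c + tq ω (g v)) := by ring
    rwa [e] at h3

/-- more glue -/
lemma Run.mono (hext : ∀ x, g' x ≠ x → g x = g' x) (h : Run ω g' x z a) : Run ω g x z a := by
  induction h with
  | one => exact Run.one
  | @step v c _ hv ih =>
    have h1 := hext v hv
    have h2 := ih.step (by rw [h1]; exact hv)
    rwa [h1] at h2

/-- turning of the first `n` tiles -/
def tsum (ω : Finset τ) (g : Half τ → Half τ) (x : Half τ) (n : ℕ) : ℤ :=
  ∑ j ∈ Finset.range n, tq ω ((g ∘ mate ω)^[j] x)

lemma run_iff : Run ω g x z a ↔ ∃ n, z = mate ω ((g ∘ mate ω)^[n] x) ∧ a = tsum ω g x (n + 1) ∧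
    ∀ j < n, g (mate ω ((g ∘ mate ω)^[j] x)) ≠ mate ω ((g ∘ mate ω)^[j] x) := by
  constructor
  · intro h
    induction h with
    | one =>
      refine ⟨0, rfl, ?_, fun j hj => absurd hj (by omega)⟩
      simp [tsum]
    | @step v c _ hv ih =>
      obtain ⟨n, h1, h2, h3⟩ := ih
      refine ⟨n + 1, ?_, ?_, ?_⟩
      · rw [iterate_succ_apply', h1]; rfl
      · unfold tsum at h2 ⊢
        rw [Finset.sum_range_succ, h2, iterate_succ_apply', h1]
        rfl
      · intro j hj
        rcases Nat.lt_succ_iff_lt_or_eq.1 hj with h4 | h4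
        · exact h3 j h4
        · rw [h4, ← h1]; exact hv
  · rintro ⟨n, rfl, rfl, h3⟩
    induction n with
    | zero =>
      have : tsum ω g x (0 + 1) = tq ω x := by simp [tsum]
      rw [this]
      exact Run.one
    | succ n ih =>
      have h4 := ih fun j hj => h3 j (by omega)
      have h5 := h4.step (h3 n (by omega))
      have e : tsum ω g x (n + 1 + 1) = tsum ω g x (n + 1) +
          tq ω (g (mate ω ((g ∘ mate ω)^[n] x))) := by
        unfold tsum
        rw [Finset.sum_range_succ _ (n + 1), iterate_succ_apply']
        rfl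
      rw [e, iterate_succ_apply']
      exact h5

/-- a strand has one end -/
lemma Run.unique (h1 : Run ω g x z a) (hz : g z = z) (h2 : Run ω g x w b) (hw : g w = w) :
    z = w ∧ a = b := by
  obtain ⟨n, e1, e2, e3⟩ := run_iff.1 h1
  obtain ⟨m, f1, f2, f3⟩ := run_iff.1 h2
  rcases lt_trichotomy n m with h | h | h
  · exact absurd (by rw [← e1]; exact hz) (f3 n h)
  · subst h
    exact ⟨e1.trans f1.symm, e2.trans f2.symm⟩
  · exact absurd (by rw [← f1]; exact hw) (e3 m h)

/-- the turning of the whole strand from the boundary half edge `e` -/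
noncomputable def turn (ω : Finset τ) (g : Half τ → Half τ) (e : Half τ) : ℤ :=
  tsum ω g e (minimalPeriod (g ∘ mate ω) e / 2)

/-- the strand of a boundary half edge as a run -/
theorem run_other {T : Finset τ} (hG : Glu T g) {e : Half τ} (he : g e = e) :
    Run ω g e (other (mate ω) g e) (turn ω g e) := by
  have hp := hG.periodic ω e
  have h2 := hG.two ω
  have h0 := h2.even he hp
  have hpos := Two.period_pos hp
  set N := minimalPeriod (g ∘ mate ω) e with hN
  obtain ⟨m, hm⟩ : ∃ m, N / 2 = m + 1 := ⟨N / 2 - 1, by omega⟩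
  have hfix := h2.other_fix he hp
  refine run_iff.2 ⟨m, ?_, ?_, ?_⟩
  · -- the last exit is the end
    have h3 : other (mate ω) g e = g (mate ω ((g ∘ mate ω)^[m] e)) := by
      unfold other
      rw [← hN, hm, iterate_succ_apply']
      rfl
    have h4 : g (other (mate ω) g e) = mate ω ((g ∘ mate ω)^[m] e) := by rw [h3, hG.inv]
    rw [hfix] at h4
    exact h4
  · unfold turn
    rw [← hN, hm]
  · intro j hj h5
    -- an earlier fixed exit
    have h6 : (g ∘ mate ω)^[j + 1] e = mate ω ((g ∘ mate ω)^[j] e) := by
      rw [iterate_succ_apply']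
      exact h5
    have h7 := h2.m_iter he (k := j) (by omega)
    rw [← h6, ← hN] at h7
    have h8 := (iterate_eq_iterate_iff_of_lt_minimalPeriod (f := g ∘ mate ω) (x := e)
      (m := j + 1) (n := N - (j + 1)) (by omega) (by omega)).1 h7
    omega

end Full.Turn
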